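import Mathlib

/-!
# Local analysis of a curve of periodic points at a pole of the structure

`x : ℤ → K` is a periodic sequence of elements of a field `K ⊇ ℂ` with
`1 / (x (j+1) - x j) + 1 / (x (j-1) - x j) = f j`, and `w` is a valuation of `K` which is trivial
on `ℂ` and `< 1` at `x 0`.
-/

namespace Pool.Agent.H719R2.PIR

variable {K : Type*} [Field K] {Γ₀ : Type*} [LinearOrderedCommGroupWithZero Γ₀]

/-- A periodic solution of the recurrence. -/
structure Orbit (q : ℕ) (x f : ℤ → K) : Prop where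
  hq : 0 < q
  per : ∀ j, x (j + q) = x j
  ne : ∀ j, x (j + 1) ≠ x j
  ne0 : ∀ j, x j ≠ 0
  rel : ∀ j, (x (j + 1) - x j)⁻¹ + (x (j - 1) - x j)⁻¹ = f j

variable {q : ℕ} {x f : ℤ → K} {φ : ℂ →+* K} {w : Valuation K Γ₀}

lemma Orbit.reverse (H : Orbit q x f) : Orbit q (fun j => x (-j)) (fun j => f (-j)) := by
  refine ⟨H.hq, fun j => ?_, fun j => ?_, fun j => H.ne0 _, fun j => ?_⟩
  · show x (-(j + q)) = x (-j)
    have := H.per (-(j + q))
    rw [← this]; congr 1; ring
  · show x (-(j + 1)) ≠ x (-j)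
    have := H.ne (-(j + 1))
    have e : -(j + 1) + 1 = -j := by ring
    rw [e] at this
    exact this.symm
  · show (x (-(j + 1)) - x (-j))⁻¹ + (x (-(j - 1)) - x (-j))⁻¹ = f (-j)
    have := H.rel (-j)
    have e1 : -(j + 1) = -j - 1 := by ring
    have e2 : -(j - 1) = -j + 1 := by ring
    rw [e1, e2, add_comm]; exact this

lemma Orbit.per_neg (H : Orbit q x f) (n : ℕ) (j : ℤ) : x (j - n * q) = x j := by
  induction n with
  | zero => simp
  | succ n ih =>
    rw [← ih, ← H.per (j - ((n + 1 : ℕ) : ℤ) * q)]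
    congr 1; push_cast; ring

/-! ### Valuation trivialities -/

lemma val_lt_of_sub {a b : K} (h : w (b - a) < w a) : w b = w a := by
  have := Valuation.map_add_eq_of_lt_left w h
  rwa [add_sub_cancel] at this

lemma val_unit (hφ : ∀ c : ℂ, c ≠ 0 → w (φ c) = 1) {y : K} {c : ℂ} (hc : c ≠ 0)
    (h : w (y - φ c) < 1) : w y = 1 := by
  have h2 : w (y - φ c) < w (φ c) := by rw [hφ c hc]; exact h
  rw [val_lt_of_sub h2, hφ c hc]

lemma eq_zero_of_val (hφ : ∀ c : ℂ, c ≠ 0 → w (φ c) = 1) {c : ℂ} (h : w (φ c) < 1) : c = 0 := by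
  by_contra hc
  rw [hφ c hc] at h
  exact lt_irrefl _ h

lemma val_le_one (hφ : ∀ c : ℂ, c ≠ 0 → w (φ c) = 1) (c : ℂ) : w (φ c) ≤ 1 := by
  by_cases hc : c = 0
  · rw [hc]; simp
  · exact (hφ c hc).le

/-! ### Simple poles -/

/-- The slope variable. -/
noncomputable def W (x : ℤ → K) (j : ℤ) : K := x j / (x (j + 1) - x j)

lemma Orbit.W_rel (H : Orbit q x f) (j : ℤ) : W x j = W x (j - 1) + 1 + f j * x j := by
  have h1 := H.rel j
  have h2 : x (j + 1) - x j ≠ 0 := sub_ne_zero.2 (H.ne j)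
  have h3 : x j - x (j - 1) ≠ 0 := by
    have := H.ne (j - 1)
    rw [sub_add_cancel] at this
    exact sub_ne_zero.2 this
  have h4 : x (j - 1) - x j ≠ 0 := by
    intro h; apply h3; rw [← neg_sub, h, neg_zero]
  rw [← h1]
  unfold W
  rw [sub_add_cancel]
  have h5 : x (j - 1) - x j = -(x j - x (j - 1)) := by ring
  rw [h5]
  field_simp
  ring

lemma Orbit.W_per (H : Orbit q x f) (j : ℤ) : W x (j + q) = W x j := by
  unfold W
  have : j + q + 1 = (j + 1) + q := by ring
  rw [this, H.per, H.per]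

lemma Orbit.chain (H : Orbit q x f) {β : ℂ}
    (hf : ∀ j, w (x j) < 1 → w (f j * x j - φ β) < 1) {a : ℤ} (hin : 1 ≤ w (x (a - 1))) (k : ℕ)
    (hk : ∀ i : ℕ, i ≤ k → w (x (a + i)) < 1) : w (W x (a + k) - φ ((k + 1) * β + k)) < 1 := by
  induction k with
  | zero =>
    have h0 : w (x a) < 1 := by simpa using hk 0 le_rfl
    have h1 := H.W_rel a
    have h3 : x a - x (a - 1) ≠ 0 := by
      have := H.ne (a - 1)
      rw [sub_add_cancel] at this
      exact sub_ne_zero.2 this
    have h2 : W x (a - 1) + 1 = x a / (x a - x (a - 1)) := by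
      unfold W
      rw [sub_add_cancel]
      field_simp
      ring
    have h4 : w (x a - x (a - 1)) = w (x (a - 1)) := by
      rw [Valuation.map_sub_swap]; exact Valuation.map_sub_eq_of_lt_left w (lt_of_lt_of_le h0 hin)
    have h5 : w (W x (a - 1) + 1) < 1 := by
      rw [h2, map_div₀, h4]
      refine (div_lt_one₀ (lt_of_lt_of_le zero_lt_one hin)).2 (lt_of_lt_of_le h0 hin)
    have h6 : W x (a + (0 : ℕ)) - φ (((0 : ℕ) + 1) * β + (0 : ℕ)) =
        (W x (a - 1) + 1) + (f a * x a - φ β) := by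
      simp only [Nat.cast_zero, add_zero, zero_add, one_mul]
      rw [h1]; ring
    rw [h6]
    exact Valuation.map_add_lt w h5 (hf a h0)
  | succ k ih =>
    have h1 := ih (fun i hi => hk i (by omega))
    have h2 := hk (k + 1) le_rfl
    have h3 := H.W_rel (a + (k + 1 : ℕ))
    have h4 : a + ((k + 1 : ℕ) : ℤ) - 1 = a + k := by push_cast; ring
    rw [h4] at h3
    have h6 : W x (a + (k + 1 : ℕ)) - φ (((k + 1 : ℕ) + 1) * β + (k + 1 : ℕ)) =
        (W x (a + k) - φ ((k + 1) * β + k)) +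
          (f (a + (k + 1 : ℕ)) * x (a + (k + 1 : ℕ)) - φ β) := by
      rw [h3]
      push_cast
      simp only [map_add, map_mul, map_natCast, map_one]
      ring
    rw [h6]
    exact Valuation.map_add_lt w h1 (hf _ h2)

/-- At a simple pole, the residue is `-1` or `-k / (k+1)`. -/
theorem Orbit.simple_pole (H : Orbit q x f) (hφ : ∀ c : ℂ, c ≠ 0 → w (φ c) = 1) {β : ℂ}
    (hf : ∀ j, w (x j) < 1 → w (f j * x j - φ β) < 1) (h0 : w (x 0) < 1) :
    β = -1 ∨ ∃ k : ℕ, (k + 1 : ℂ) * β + k = 0 := by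
  by_cases hall : ∀ j, w (x j) < 1
  · left
    have key : ∀ n : ℕ, w (W x n - W x 0 - φ (n * (1 + β))) < 1 := by
      intro n
      induction n with
      | zero => simp
      | succ n ih =>
        have h3 := H.W_rel ((n + 1 : ℕ) : ℤ)
        have h4 : ((n + 1 : ℕ) : ℤ) - 1 = n := by push_cast; ring
        rw [h4] at h3
        have h6 : W x ((n + 1 : ℕ) : ℤ) - W x 0 - φ (((n + 1 : ℕ) : ℂ) * (1 + β)) =
            (W x n - W x 0 - φ (n * (1 + β))) +
              (f ((n + 1 : ℕ) : ℤ) * x ((n + 1 : ℕ) : ℤ) - φ β) := by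
          rw [h3]
          simp only [map_add, map_mul, map_natCast, map_one, Nat.cast_add, Nat.cast_one]
          ring
        rw [h6]
        exact Valuation.map_add_lt w ih (hf _ (hall _))
    have h1 := key q
    have h2 : W x (q : ℤ) = W x 0 := by
      have := H.W_per 0
      rwa [zero_add] at this
    rw [h2, sub_self, zero_sub, Valuation.map_neg] at h1
    have h3 := eq_zero_of_val hφ h1
    have h4 : (q : ℂ) ≠ 0 := by exact_mod_cast H.hq.ne'
    have h5 : 1 + β = 0 := (mul_eq_zero.1 h3).resolve_left h4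
    linear_combination h5
  · right
    push Not at hall
    obtain ⟨j0, hj0⟩ := hall
    -- go back to a negative index
    have hex : ∃ n : ℕ, 1 ≤ w (x (-(n : ℤ))) := by
      refine ⟨(j0 - (j0.toNat + 1 : ℕ) * q).natAbs, ?_⟩
      have h1 : j0 - ((j0.toNat + 1 : ℕ) : ℤ) * q ≤ 0 := by
        have h2 : j0 ≤ j0.toNat := Int.self_le_toNat j0
        have h3 : (1 : ℤ) ≤ q := by exact_mod_cast H.hq
        have h4 : ((j0.toNat + 1 : ℕ) : ℤ) * 1 ≤ ((j0.toNat + 1 : ℕ) : ℤ) * q :=
          mul_le_mul_of_nonneg_left h3 (by positivity)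
        push_cast at *
        linarith
      have h2 : -(((j0 - ((j0.toNat + 1 : ℕ) : ℤ) * q).natAbs : ℕ) : ℤ) =
          j0 - ((j0.toNat + 1 : ℕ) : ℤ) * q := by
        rw [Int.ofNat_natAbs_of_nonpos h1]; ring
      rw [h2, H.per_neg]
      exact hj0
    classical
    set n0 := Nat.find hex with hn0
    have hn0' : 1 ≤ w (x (-(n0 : ℤ))) := Nat.find_spec hex
    have hn0min : ∀ m < n0, w (x (-(m : ℤ))) < 1 := fun m hm => by
      have := Nat.find_min hex hm
      exact not_le.1 this
    have hn0pos : 0 < n0 := by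
      rcases Nat.eq_zero_or_pos n0 with h | h
      · rw [h] at hn0'
        simp only [Nat.cast_zero, neg_zero] at hn0'
        exact absurd h0 (not_lt.2 hn0')
      · exact h
    set a : ℤ := -(n0 : ℤ) + 1 with ha
    have hin : 1 ≤ w (x (a - 1)) := by
      rw [ha, add_sub_cancel_right]; exact hn0'
    have ha0 : w (x a) < 1 := by
      have := hn0min (n0 - 1) (by omega)
      have e : a = -((n0 - 1 : ℕ) : ℤ) := by rw [ha]; omega
      rw [e]; exact this
    have hex2 : ∃ n : ℕ, 1 ≤ w (x (a + n)) := by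
      refine ⟨q - 1, ?_⟩
      have e : a + ((q - 1 : ℕ) : ℤ) = (a - 1) + q := by
        have := H.hq; omega
      rw [e, H.per]; exact hin
    set n1 := Nat.find hex2 with hn1
    have hn1' : 1 ≤ w (x (a + n1)) := Nat.find_spec hex2
    have hn1min : ∀ m < n1, w (x (a + (m : ℤ))) < 1 := fun m hm => by
      have := Nat.find_min hex2 hm
      exact not_le.1 this
    have hn1pos : 0 < n1 := by
      rcases Nat.eq_zero_or_pos n1 with h | h
      · rw [h] at hn1'
        simp only [Nat.cast_zero, add_zero] at hn1'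
        exact absurd ha0 (not_lt.2 hn1')
      · exact h
    obtain ⟨k, hk⟩ : ∃ k, n1 = k + 1 := ⟨n1 - 1, by omega⟩
    refine ⟨k, ?_⟩
    have h1 := H.chain hf hin k (fun i hi => hn1min i (by omega))
    have h2 : w (W x (a + k)) < 1 := by
      unfold W
      have e : a + (k : ℤ) + 1 = a + n1 := by rw [hk]; push_cast; ring
      rw [e, map_div₀]
      have h3 := hn1min k (by omega)
      have h4 : w (x (a + n1) - x (a + k)) = w (x (a + n1)) :=
        (Valuation.map_sub_swap w _ _).trans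
          (Valuation.map_sub_eq_of_lt_right w (lt_of_lt_of_le h3 hn1'))
      rw [h4]
      exact (div_lt_one₀ (lt_of_lt_of_le zero_lt_one hn1')).2 (lt_of_lt_of_le h3 hn1')
    have h3 : w (φ ((k + 1) * β + k)) < 1 := by
      have e : φ ((k + 1) * β + k) = W x (a + k) - (W x (a + k) - φ ((k + 1) * β + k)) := by ring
      rw [e]
      exact Valuation.map_sub_lt w h2 h1
    exact eq_zero_of_val hφ h3

/-! ### Poles of higher order -/

/-- The reciprocal step. -/
noncomputable def A (x : ℤ → K) (j : ℤ) : K := (x (j + 1) - x j)⁻¹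

lemma Orbit.A_rel (H : Orbit q x f) (j : ℤ) : A x j - A x (j - 1) = f j := by
  have h1 := H.rel j
  unfold A
  rw [← h1, sub_add_cancel, ← neg_sub (x j) (x (j - 1)), inv_neg]
  ring

lemma Orbit.A_per (H : Orbit q x f) (j : ℤ) : A x (j + q) = A x j := by
  unfold A
  have : j + q + 1 = (j + 1) + q := by ring
  rw [this, H.per, H.per]

lemma pow_sub_one_lt {r : K} (hr : w (r - 1) < 1) (m : ℕ) : w (r ^ m - 1) < 1 := by
  have h1 : w r ≤ 1 := by
    have : r = (r - 1) + 1 := by ring
    rw [this]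
    exact Valuation.map_add_le w hr.le (by rw [map_one])
  induction m with
  | zero => simp
  | succ m ih =>
    have : r ^ (m + 1) - 1 = (r ^ m - 1) * r + (r - 1) := by ring
    rw [this]
    refine Valuation.map_add_lt w ?_ hr
    rw [map_mul]
    calc w (r ^ m - 1) * w r ≤ w (r ^ m - 1) * 1 := by gcongr
      _ < 1 := by rw [mul_one]; exact ih

/-- Transport of the leading coefficient to a nearby point. -/
lemma Orbit.near (H : Orbit q x f) {α : ℂ} (hφ : ∀ c : ℂ, c ≠ 0 → w (φ c) = 1) {m : ℕ}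
    (hf : ∀ j, w (x j) < 1 → w (f j * x j ^ m - φ α) < 1) {a b : ℤ} (ha : w (x a) < 1)
    (hab : w (x b - x a) < w (x a)) : w (f b * x a ^ m - φ α) < 1 := by
  have hb : w (x b) = w (x a) := val_lt_of_sub hab
  have hb1 : w (x b) < 1 := by rw [hb]; exact ha
  set r := x a / x b with hr
  have hxb := H.ne0 b
  have hr1 : w (r - 1) < 1 := by
    have e : r - 1 = -((x b - x a) / x b) := by rw [hr]; field_simp; ring
    rw [e, Valuation.map_neg, map_div₀, hb]
    exact (div_lt_one₀ (zero_lt_iff.2 ((Valuation.ne_zero_iff w).2 (H.ne0 a)))).2 hab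
  have h2 := pow_sub_one_lt hr1 m
  have h3 := hf b hb1
  have h4 : f b * x a ^ m - φ α = (f b * x b ^ m - φ α) * r ^ m + φ α * (r ^ m - 1) := by
    rw [hr, div_pow]
    field_simp
    ring
  have h5 : w (r ^ m) ≤ 1 := by
    have : r ^ m = (r ^ m - 1) + 1 := by ring
    rw [this]
    exact Valuation.map_add_le w h2.le (by rw [map_one])
  rw [h4]
  refine Valuation.map_add_lt w ?_ ?_
  · rw [map_mul]
    calc w (f b * x b ^ m - φ α) * w (r ^ m) ≤ w (f b * x b ^ m - φ α) * 1 := by gcongr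
      _ < 1 := by rw [mul_one]; exact h3
  · rw [map_mul]
    calc w (φ α) * w (r ^ m - 1) ≤ 1 * w (r ^ m - 1) := by
          gcongr; exact val_le_one hφ α
      _ < 1 := by rw [one_mul]; exact h2

/-- A strong link leads to a nearby point. -/
lemma Orbit.step (H : Orbit q x f) {m : ℕ} (hm : 2 ≤ m) {a b : ℤ} (ha : w (x a) < 1)
    (hab : w (x b - x a) < w (x a)) (hA : 1 ≤ w (A x b * x a ^ m)) :
    w (x (b + 1) - x a) < w (x a) := by
  have h1 : x (b + 1) - x b ≠ 0 := sub_ne_zero.2 (H.ne b)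
  have h2 : 0 < w (x (b + 1) - x b) := zero_lt_iff.2 ((Valuation.ne_zero_iff w).2 h1)
  have ha0 : 0 < w (x a) := zero_lt_iff.2 ((Valuation.ne_zero_iff w).2 (H.ne0 a))
  have h3 : w (x (b + 1) - x b) ≤ w (x a) ^ m := by
    have e : A x b * x a ^ m = x a ^ m / (x (b + 1) - x b) := by
      unfold A; field_simp
    rw [e, map_div₀, map_pow] at hA
    exact (one_le_div₀ h2).1 hA
  have h4 : w (x a) ^ m < w (x a) := by
    calc w (x a) ^ m ≤ w (x a) ^ 2 := pow_le_pow_right_of_le_one' ha.le hm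
      _ = w (x a) * w (x a) := sq _
      _ < w (x a) * 1 := by
        exact mul_lt_mul_of_pos_left ha ha0
      _ = w (x a) := mul_one _
  have h5 : x (b + 1) - x a = (x (b + 1) - x b) + (x b - x a) := by ring
  rw [h5]
  exact Valuation.map_add_lt w (lt_of_le_of_lt h3 h4) hab

lemma Orbit.forward (H : Orbit q x f) (hφ : ∀ c : ℂ, c ≠ 0 → w (φ c) = 1) {α : ℂ} (hα : α ≠ 0)
    {m : ℕ} (hm : 2 ≤ m) (hf : ∀ j, w (x j) < 1 → w (f j * x j ^ m - φ α) < 1) {a : ℤ}
    (ha : w (x a) < 1) : 1 ≤ w (A x (a - 1) * x a ^ m) := by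
  by_contra hcon
  push Not at hcon
  have ha0 : 0 < w (x a) := zero_lt_iff.2 ((Valuation.ne_zero_iff w).2 (H.ne0 a))
  have key : ∀ n : ℕ, w (x (a + n) - x a) < w (x a) ∧
      w (A x (a + n) * x a ^ m - φ ((n + 1) * α)) < 1 := by
    intro n
    induction n with
    | zero =>
      refine ⟨by simpa using ha0, ?_⟩
      have h1 := H.A_rel a
      have e : A x (a + (0 : ℕ)) * x a ^ m - φ (((0 : ℕ) + 1) * α) =
          A x (a - 1) * x a ^ m + (f a * x a ^ m - φ α) := by
        simp only [Nat.cast_zero, add_zero, zero_add, one_mul]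
        rw [← h1]; ring
      rw [e]
      exact Valuation.map_add_lt w hcon (hf a ha)
    | succ n ih =>
      obtain ⟨i1, i2⟩ := ih
      have hn : ((n + 1) * α : ℂ) ≠ 0 := mul_ne_zero (by exact_mod_cast Nat.succ_ne_zero n) hα
      have h1 := val_unit hφ hn i2
      have h2 := H.step hm ha i1 h1.ge
      have e0 : a + ((n + 1 : ℕ) : ℤ) = a + n + 1 := by push_cast; ring
      rw [e0]
      refine ⟨h2, ?_⟩
      have h3 := H.near hφ hf ha h2
      have h4 := H.A_rel (a + n + 1)
      rw [add_sub_cancel_right] at h4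
      have e : A x (a + n + 1) * x a ^ m - φ (((n + 1 : ℕ) + 1) * α) =
          (A x (a + n) * x a ^ m - φ ((n + 1) * α)) + (f (a + n + 1) * x a ^ m - φ α) := by
        rw [← h4]
        push_cast
        simp only [map_add, map_mul, map_natCast, map_one]
        ring
      rw [e]
      exact Valuation.map_add_lt w i2 h3
  obtain ⟨k1, k2⟩ := key (q - 1)
  have e1 : a + ((q - 1 : ℕ) : ℤ) = (a - 1) + q := by
    have := H.hq; omega
  rw [e1, H.A_per] at k2
  have hn : (((q - 1 : ℕ) : ℂ) + 1) * α ≠ 0 :=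
    mul_ne_zero (by exact_mod_cast Nat.succ_ne_zero (q - 1)) hα
  have h1 := val_unit hφ hn k2
  rw [h1] at hcon
  exact lt_irrefl _ hcon

/-- There are no poles of higher order. -/
theorem Orbit.high_pole (H : Orbit q x f) (hφ : ∀ c : ℂ, c ≠ 0 → w (φ c) = 1) {α : ℂ}
    (hα : α ≠ 0) {m : ℕ} (hm : 2 ≤ m)
    (hf : ∀ j, w (x j) < 1 → w (f j * x j ^ m - φ α) < 1) (h0 : w (x 0) < 1) : False := by
  -- right links are strong, by reversal
  have hright : ∀ b, w (x b) < 1 → 1 ≤ w (A x b * x b ^ m) := by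
    intro b hb
    have h1 := H.reverse.forward (w := w) hφ hα hm (fun j hj => hf (-j) hj) (a := -b)
      (by simpa using hb)
    have e : A (fun j => x (-j)) (-b - 1) * (fun j => x (-j)) (-b) ^ m =
        -(A x b * x b ^ m) := by
      simp only [A]
      have e1 : -(-b - 1 + 1) = b := by ring
      have e2 : -(-b - 1) = b + 1 := by ring
      rw [e1, e2, neg_neg, ← neg_sub (x (b + 1)) (x b), inv_neg]
      ring
    rw [e, Valuation.map_neg] at h1
    exact h1
  have hx0 : 0 < w (x 0) := zero_lt_iff.2 ((Valuation.ne_zero_iff w).2 (H.ne0 0))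
  have key : ∀ n : ℕ, w (x n - x 0) < w (x 0) ∧
      w ((A x n - A x 0) * x 0 ^ m - φ (n * α)) < 1 := by
    intro n
    induction n with
    | zero => refine ⟨by simpa using hx0, by simp⟩
    | succ n ih =>
      obtain ⟨i1, i2⟩ := ih
      have hxn : w (x n) = w (x 0) := val_lt_of_sub i1
      have h1 := hright n (by rw [hxn]; exact h0)
      have h1' : 1 ≤ w (A x n * x 0 ^ m) := by
        rw [map_mul, map_pow] at h1 ⊢
        rwa [hxn] at h1
      have h2 := H.step hm h0 i1 h1'
      have e0 : ((n + 1 : ℕ) : ℤ) = n + 1 := by push_cast; ring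
      rw [e0]
      refine ⟨h2, ?_⟩
      have h3 := H.near hφ hf h0 h2
      have h4 := H.A_rel (n + 1)
      rw [add_sub_cancel_right] at h4
      have e : (A x (n + 1) - A x 0) * x 0 ^ m - φ (((n + 1 : ℕ) : ℂ) * α) =
          ((A x n - A x 0) * x 0 ^ m - φ (n * α)) + (f (n + 1) * x 0 ^ m - φ α) := by
        rw [← h4]
        push_cast
        simp only [map_add, map_mul, map_natCast, map_one]
        ring
      rw [e]
      exact Valuation.map_add_lt w i2 h3
  obtain ⟨k1, k2⟩ := key q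
  have e1 : A x (q : ℤ) = A x 0 := by
    have := H.A_per 0
    rwa [zero_add] at this
  rw [e1, sub_self, zero_mul, zero_sub, Valuation.map_neg] at k2
  have h3 := eq_zero_of_val hφ k2
  have h4 : (q : ℂ) ≠ 0 := by exact_mod_cast H.hq.ne'
  exact hα ((mul_eq_zero.1 h3).resolve_left h4)

end Pool.Agent.H719R2.PIR
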