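import Pool.Agent.H719R2.PIR.Sym

/-!
# Classification of the rational structures with a curve of periodic points
-/

open Polynomial Filter

namespace Pool.Agent.H719R2.PIR

open ComplexConjugate

lemma Adm.real {β : ℂ} (h : Adm β) : ∃ b : ℝ, β = b ∧ (b = 0 ∨ b ≤ -1 / 2) := by
  rcases h with h | ⟨k, hk⟩
  · exact ⟨-1, by rw [h]; push_cast; ring, Or.inr (by norm_num)⟩
  · refine ⟨-(k / (k + 1)), ?_, ?_⟩
    · have h1 : ((k : ℂ) + 1) ≠ 0 := by exact_mod_cast Nat.succ_ne_zero k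
      push_cast
      field_simp
      linear_combination hk
    · rcases Nat.eq_zero_or_pos k with h0 | h0
      · left; rw [h0]; simp
      · right
        have h1 : (1 : ℝ) ≤ k := by exact_mod_cast h0
        rw [neg_div, neg_le_neg_iff, div_le_div_iff₀ (by norm_num) (by positivity)]
        linarith

variable {N D : ℂ[X]}

/-- The real residue at a pole. -/
noncomputable def bre (N D : ℂ[X]) (ξ : ℂ) : ℝ :=
  (N.eval ξ / (2 * Complex.I * ξ * (derivative D).eval ξ)).re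

lemma RS.bre_spec (H : RS N D) {ξ : ℂ} (hξ : D.eval ξ = 0) :
    N.eval ξ / (derivative D).eval ξ = 2 * Complex.I * ξ * bre N D ξ ∧ bre N D ξ ≤ -1 / 2 := by
  have h0 := H.root_ne hξ
  obtain ⟨h1, h2⟩ := H.res ξ h0 hξ
  obtain ⟨b, hb, hb2⟩ := h2.real
  have h2I : (2 * Complex.I : ℂ) ≠ 0 := mul_ne_zero two_ne_zero Complex.I_ne_zero
  have hbre : bre N D ξ = b := by unfold bre; rw [hb, Complex.ofReal_re]
  have hNξ : N.eval ξ ≠ 0 := by
    intro h
    obtain ⟨a, b, hab⟩ := H.cop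
    have := congrArg (eval ξ) hab
    simp [h, hξ] at this
  rw [hbre]
  constructor
  · rw [← hb]
    field_simp
  · rcases hb2 with h3 | h3
    · exfalso
      rw [h3, Complex.ofReal_zero] at hb
      exact div_ne_zero hNξ (mul_ne_zero (mul_ne_zero h2I h0) h1) hb
    · exact h3

/-- The value at the origin. -/
lemma RS.zero_spec (H : RS N D) : ∃ b : ℝ, N.eval 0 / D.eval 0 = 2 * Complex.I * (1 + b) ∧
    (b = 0 ∨ b ≤ -1 / 2) := by
  obtain ⟨b, hb, hb2⟩ := H.adm0.real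
  refine ⟨b, ?_, hb2⟩
  have h2I : (2 * Complex.I : ℂ) ≠ 0 := mul_ne_zero two_ne_zero Complex.I_ne_zero
  have h1 := H.zero
  rw [← hb]
  field_simp
  ring

lemma RS.value (H : RS N D) {p : ℂ} (hp : D.eval p ≠ 0) :
    N.eval p / D.eval p = conj (N.eval 0 / D.eval 0) +
      ∑ ξ ∈ poles D, 2 * Complex.I * bre N D ξ * (ξ / (p - ξ)) := by
  rw [H.partial_fractions hp]
  congr 1
  refine Finset.sum_congr rfl fun ξ hξ => ?_
  rw [(H.bre_spec (H.mem_poles.1 hξ)).1]
  ring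

lemma RS.sum_bre (H : RS N D) {b : ℝ} (hb : N.eval 0 / D.eval 0 = 2 * Complex.I * (1 + b)) :
    ∑ ξ ∈ poles D, bre N D ξ = -2 - 2 * b := by
  have h1 := H.value H.zero
  have h2 : ∑ ξ ∈ poles D, 2 * Complex.I * bre N D ξ * (ξ / (0 - ξ)) =
      -(2 * Complex.I) * ((∑ ξ ∈ poles D, bre N D ξ : ℝ) : ℂ) := by
    push_cast
    rw [Finset.mul_sum]
    refine Finset.sum_congr rfl fun ξ hξ => ?_
    have h0 := H.root_ne (H.mem_poles.1 hξ)
    field_simp
    ring
  rw [h2, hb] at h1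
  have h3 : conj (2 * Complex.I * (1 + (b : ℂ))) = -(2 * Complex.I) * (1 + b) := by
    simp only [map_mul, map_add, map_one, Complex.conj_I, Complex.conj_ofReal, map_ofNat]
    ring
  rw [h3] at h1
  have h4 : ((∑ ξ ∈ poles D, bre N D ξ : ℝ) : ℂ) = ((-2 - 2 * b : ℝ) : ℂ) := by
    have h2I : (2 * Complex.I : ℂ) ≠ 0 := mul_ne_zero two_ne_zero Complex.I_ne_zero
    apply mul_left_cancel₀ h2I
    push_cast at h1 ⊢
    linear_combination h1
  exact_mod_cast h4

lemma RS.norm_ne (H : RS N D) {ξ : ℂ} (hξ : D.eval ξ = 0) : ‖ξ‖ ≠ 1 := by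
  intro h
  have h1 := Complex.norm_mul_exp_arg_mul_I ξ
  rw [h, Complex.ofReal_one, one_mul] at h1
  have h2 := H.den (Complex.arg ξ)
  unfold ee at h2
  rw [h1] at h2
  exact h2 hξ

open Classical in
/-- The poles inside the disc. -/
noncomputable def ins (D : ℂ[X]) : Finset ℂ := (poles D).filter (fun ξ => ‖ξ‖ < 1)

open Classical in
lemma RS.sum_split (H : RS N D) {M : Type*} [AddCommMonoid M] (g : ℂ → M) :
    ∑ ξ ∈ poles D, g ξ = ∑ ξ ∈ ins D, (g ξ + g (conj ξ)⁻¹) := by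
  rw [← Finset.sum_filter_add_sum_filter_not (poles D) (fun ξ => ‖ξ‖ < 1), Finset.sum_add_distrib]
  congr 1
  refine Finset.sum_nbij' (fun ξ => (conj ξ)⁻¹) (fun ξ => (conj ξ)⁻¹) ?_ ?_ ?_ ?_ ?_
  · intro ξ hξ
    rw [Finset.mem_filter, H.mem_poles] at hξ
    unfold ins
    rw [Finset.mem_filter, H.mem_poles]
    refine ⟨H.root_symm hξ.1, ?_⟩
    have h1 := H.norm_ne hξ.1
    have h2 : 1 < ‖ξ‖ := lt_of_le_of_ne (not_lt.1 hξ.2) (Ne.symm h1)
    simp only [norm_inv, RCLike.norm_conj]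
    exact inv_lt_one_of_one_lt₀ h2
  · intro ξ hξ
    unfold ins at hξ
    rw [Finset.mem_filter, H.mem_poles] at hξ
    rw [Finset.mem_filter, H.mem_poles]
    refine ⟨H.root_symm hξ.1, ?_⟩
    have h0 : 0 < ‖ξ‖ := norm_pos_iff.2 (H.root_ne hξ.1)
    simp only [norm_inv, RCLike.norm_conj, not_lt]
    exact (one_le_inv₀ h0).2 hξ.2.le
  · intro ξ _
    simp
  · intro ξ _
    simp
  · intro ξ _
    simp

/-- The value of the structure on the circle. -/
lemma RS.value_circle (H : RS N D) (Θ : ℝ) :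
    N.eval (ee Θ) / D.eval (ee Θ) =
      ((∑ ξ ∈ ins D, -2 * (bre N D ξ + bre N D (conj ξ)⁻¹) * (ξ / (ee Θ - ξ)).im : ℝ) : ℂ) := by
  obtain ⟨b, hb, -⟩ := H.zero_spec
  obtain ⟨r, hr⟩ := H.real Θ
  have h1 := H.value (H.den Θ)
  rw [H.sum_split, hb, hr] at h1
  rw [hr]
  congr 1
  have h2 := congrArg Complex.re h1
  rw [Complex.ofReal_re, Complex.add_re, Complex.re_sum] at h2
  have h3 : (conj (2 * Complex.I * (1 + (b : ℂ)))).re = 0 := by
    simp
  rw [h3, zero_add] at h2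
  rw [h2]
  refine Finset.sum_congr rfl fun ξ hξ => ?_
  have hξ' : D.eval ξ = 0 ∧ ‖ξ‖ < 1 := by
    unfold ins at hξ
    rw [Finset.mem_filter, H.mem_poles] at hξ
    exact hξ
  have h0 := H.root_ne hξ'.1
  set z := ξ / (ee Θ - ξ) with hz
  have hne : ee Θ - ξ ≠ 0 := by
    intro h
    have : ee Θ = ξ := sub_eq_zero.1 h
    have h5 := hξ'.2
    rw [← this, ee_norm] at h5
    exact lt_irrefl _ h5
  have h4 : (conj ξ)⁻¹ / (ee Θ - (conj ξ)⁻¹) = -1 - conj z := by
    have hc : conj ξ ≠ 0 := (_root_.map_ne_zero _).2 h0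
    have hce : conj (ee Θ) ≠ 0 := (_root_.map_ne_zero _).2 (ee_ne Θ)
    have hcn : conj (ee Θ) - conj ξ ≠ 0 := by
      rw [← map_sub]; exact (_root_.map_ne_zero _).2 hne
    have he : conj (ee Θ) * ee Θ = 1 := by
      have := conj_inv_ee Θ
      rw [inv_eq_iff_eq_inv] at this
      rw [this, inv_mul_cancel₀ (ee_ne Θ)]
    have hd : ee Θ - (conj ξ)⁻¹ ≠ 0 := by
      intro h
      apply hcn
      have h6 : ee Θ = (conj ξ)⁻¹ := sub_eq_zero.1 h
      have h7 : ee Θ * conj ξ = 1 := by rw [h6]; field_simp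
      have h8 : conj (ee Θ) * (ee Θ * conj ξ) = conj (ee Θ) := by rw [h7, mul_one]
      rw [← mul_assoc, he, one_mul] at h8
      rw [h8, sub_self]
    rw [hz, map_div₀, map_sub]
    have hd2 : ee Θ * conj ξ - 1 ≠ 0 := by
      intro h
      apply hd
      have : ee Θ * conj ξ = 1 := sub_eq_zero.1 h
      field_simp
      linear_combination this
    have e1 : (conj ξ)⁻¹ / (ee Θ - (conj ξ)⁻¹) = 1 / (ee Θ * conj ξ - 1) := by
      have e2 : ee Θ - (conj ξ)⁻¹ = (ee Θ * conj ξ - 1) / conj ξ := by field_simp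
      rw [e2]; field_simp
    rw [e1]
    field_simp
    linear_combination (conj ξ) * he
  rw [h4]
  simp only [Complex.add_re, Complex.mul_re, Complex.sub_re, Complex.neg_re, Complex.conj_re,
    Complex.mul_im, Complex.sub_im, Complex.neg_im, Complex.conj_im, Complex.I_re, Complex.I_im,
    Complex.ofReal_re, Complex.ofReal_im, Complex.one_re, Complex.one_im]
  norm_num
  ring

/-- **Classification.** -/
theorem RS.classify (H : RS N D) : ∃ ξ₁ ξ₂ : ℂ, ‖ξ₁‖ < 1 ∧ ‖ξ₂‖ < 1 ∧ ∀ Θ,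
    N.eval (ee Θ) / D.eval (ee Θ) =
      ((2 * (ξ₁ / (ee Θ - ξ₁)).im + 2 * (ξ₂ / (ee Θ - ξ₂)).im : ℝ) : ℂ) := by
  obtain ⟨b, hb, hb2⟩ := H.zero_spec
  have hsum := H.sum_bre hb
  rw [H.sum_split] at hsum
  set γ : ℂ → ℝ := fun ξ => bre N D ξ + bre N D (conj ξ)⁻¹ with hγ
  have hmem : ∀ ξ ∈ ins D, D.eval ξ = 0 ∧ ‖ξ‖ < 1 := by
    intro ξ hξ
    unfold ins at hξ
    rw [Finset.mem_filter, H.mem_poles] at hξ
    exact hξ
  have hγle : ∀ ξ ∈ ins D, γ ξ ≤ -1 := by
    intro ξ hξ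
    have h1 := (hmem ξ hξ).1
    have h2 := (H.bre_spec h1).2
    have h3 := (H.bre_spec (H.root_symm h1)).2
    rw [hγ]
    simp only
    linarith
  have hcard : ((ins D).card : ℝ) ≤ 2 + 2 * b := by
    have h1 := Finset.sum_le_sum hγle
    rw [Finset.sum_const, nsmul_eq_mul] at h1
    have h2 : ∑ ξ ∈ ins D, γ ξ = -2 - 2 * b := hsum
    rw [h2] at h1
    linarith
  have hb0 : b ≤ 0 := by
    rcases hb2 with h | h <;> linarith
  have hcard2 : (ins D).card ≤ 2 := by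
    have : ((ins D).card : ℝ) ≤ 2 := by linarith
    exact_mod_cast this
  have hval := H.value_circle
  interval_cases hc : (ins D).card
  · have he := Finset.card_eq_zero.1 hc
    refine ⟨0, 0, by simp, by simp, fun Θ => ?_⟩
    rw [hval Θ, he]
    simp
  · obtain ⟨ξ, hξ⟩ := Finset.card_eq_one.1 hc
    have hin : ξ ∈ ins D := by rw [hξ]; simp
    have hs : γ ξ = -2 - 2 * b := by
      have : ∑ ξ ∈ ins D, γ ξ = -2 - 2 * b := hsum
      rwa [hξ, Finset.sum_singleton] at this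
    norm_num at hcard
    rcases hb2 with h | h
    · refine ⟨ξ, ξ, (hmem ξ hin).2, (hmem ξ hin).2, fun Θ => ?_⟩
      rw [hval Θ, hξ, Finset.sum_singleton]
      congr 1
      have h5 : bre N D ξ + bre N D (conj ξ)⁻¹ = -2 := by
        have : γ ξ = -2 := by rw [hs, h]; ring
        exact this
      rw [h5]; ring
    · refine ⟨ξ, 0, (hmem ξ hin).2, by simp, fun Θ => ?_⟩
      rw [hval Θ, hξ, Finset.sum_singleton]
      congr 1
      have h5 : bre N D ξ + bre N D (conj ξ)⁻¹ = -1 := by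
        have h6 : b = -1 / 2 := by linarith
        have : γ ξ = -1 := by rw [hs, h6]; ring
        exact this
      rw [h5]; simp
  · obtain ⟨ξ, ξ', hne, hξ⟩ := Finset.card_eq_two.1 hc
    have hin : ξ ∈ ins D := by rw [hξ]; simp
    have hin' : ξ' ∈ ins D := by rw [hξ]; simp
    have hs : γ ξ + γ ξ' = -2 - 2 * b := by
      have : ∑ ξ ∈ ins D, γ ξ = -2 - 2 * b := hsum
      rwa [hξ, Finset.sum_pair hne] at this
    have h1 := hγle ξ hin
    have h2 := hγle ξ' hin'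
    have hb' : b = 0 := by
      push_cast at hcard
      linarith
    refine ⟨ξ, ξ', (hmem ξ hin).2, (hmem ξ' hin').2, fun Θ => ?_⟩
    rw [hval Θ, hξ, Finset.sum_pair hne]
    congr 1
    have h5 : bre N D ξ + bre N D (conj ξ)⁻¹ = -1 := by
      have : γ ξ = -1 := by linarith
      exact this
    have h6 : bre N D ξ' + bre N D (conj ξ')⁻¹ = -1 := by
      have : γ ξ' = -1 := by linarith
      exact this
    rw [h5, h6]; ring

end Pool.Agent.H719R2.PIR
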