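import Pool.Agent.H719R2.PIB.Ell

/-!
# Dynamics on the leaves: invariant density, a leaf of periodic points, irrational leaves
-/

open Set Filter Topology Complex
open scoped ContDiff Real

namespace Pool.Agent.H719R2.PIB

variable {Y : ℂ → ℝ} {v : ℝ → ℝ}

/-- The slope of the step map. -/
noncomputable def Fp (Y : ℂ → ℝ) (c Θ : ℝ) : ℝ :=
  (S Y 1 c Θ * N Y (Z Y 1 c Θ) - R Y (Z Y 1 c Θ)) / den Y 1 c Θ

lemma Fp_pos (h : IsCollar Y) {c : ℝ} (h0 : 0 < c) (h1 : c ≤ 1) (Θ : ℝ) : 0 < Fp Y c Θ := by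
  have h2 := den_pos h h0 h1 Θ
  have h3 := den_neg h h0 h1 (F Y c Θ)
  unfold den at h3
  rw [Z_F h h0 h1, S_F h h0 h1] at h3
  unfold Fp
  exact div_pos (by linarith) h2

lemma ww_F (h : IsCollar Y) (hv : HV Y v) {c : ℝ} (h0 : 0 < c) (h1 : c < 1) (Θ : ℝ) :
    ww Y c (F Y c Θ) * Fp Y c Θ = ww Y c Θ := by
  rw [← ww_eq h hv h0 h1 (F Y c Θ)]
  have hd := (den_pos h h0 h1.le Θ).ne'
  have hd2 := (den_neg h h0 h1.le (F Y c Θ)).ne
  have hs := (S_pos h h0 h1.le Θ).ne'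
  unfold Fp ww xx yy den at *
  rw [S_F h h0 h1.le, Z_F h h0 h1.le] at *
  set s := S Y 1 c Θ with hs'
  set n := N Y (Z Y 1 c Θ) with hn'
  set r := R Y (Z Y 1 c Θ) with hr'
  have hs2 : (1 : ℝ) + s ^ 2 ≠ 0 := by positivity
  have hd3 : r - s * n ≠ 0 := by
    intro hcon; apply hd2; linarith
  have he : r + -s * n = r - s * n := by ring
  rw [he]
  field_simp
  ring

/-- The invariant measure. -/
noncomputable def Phi (Y : ℂ → ℝ) (c Θ : ℝ) : ℝ := ∫ t in (0 : ℝ)..Θ, ww Y c t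

lemma ww_cont' (h : IsCollar Y) {c : ℝ} (h0 : 0 < c) (h1 : c ≤ 1) :
    Continuous (fun Θ => ww Y c Θ) := slice (ww_cont h) h0 h1

lemma Phi_hasDerivAt (h : IsCollar Y) {c : ℝ} (h0 : 0 < c) (h1 : c ≤ 1) (Θ : ℝ) :
    HasDerivAt (Phi Y c) (ww Y c Θ) Θ := by
  have hc := ww_cont' h h0 h1
  exact intervalIntegral.integral_hasDerivAt_right (hc.intervalIntegrable _ _)
    (hc.stronglyMeasurableAtFilter _ _) hc.continuousAt

lemma Phi_strictMono (h : IsCollar Y) {c : ℝ} (h0 : 0 < c) (h1 : c ≤ 1) :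
    StrictMono (Phi Y c) :=
  strictMono_of_deriv_pos fun Θ => by
    rw [(Phi_hasDerivAt h h0 h1 Θ).deriv]; exact ww_pos h h0 h1 Θ

lemma Phi_zero (c : ℝ) : Phi Y c 0 = 0 := by simp [Phi]

lemma ww_periodic (c Θ : ℝ) : ww Y c (Θ + 2 * π) = ww Y c Θ := by
  unfold ww den; simp only [yy_periodic, S_periodic, Z_periodic]

lemma Phi_add (h : IsCollar Y) {c : ℝ} (h0 : 0 < c) (h1 : c ≤ 1) (Θ : ℝ) :
    Phi Y c (Θ + 2 * π) = Phi Y c Θ + Phi Y c (2 * π) := by
  have hd : ∀ Θ, HasDerivAt (fun Θ => Phi Y c (Θ + 2 * π) - Phi Y c Θ) 0 Θ := by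
    intro Θ
    have e1 := (Phi_hasDerivAt h h0 h1 (Θ + 2 * π)).comp_add_const Θ (2 * π)
    refine (e1.sub (Phi_hasDerivAt h h0 h1 Θ)).congr_deriv ?_
    rw [ww_periodic, sub_self]
  have h2 := is_const_of_deriv_eq_zero (fun Θ => (hd Θ).differentiableAt)
    (fun Θ => (hd Θ).deriv) Θ 0
  simp only [zero_add, Phi_zero, sub_zero] at h2
  linarith

lemma Phi_F (h : IsCollar Y) (hv : HV Y v) {c : ℝ} (h0 : 0 < c) (h1 : c < 1) (Θ : ℝ) :
    Phi Y c (F Y c Θ) = Phi Y c Θ + Phi Y c (F Y c 0) := by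
  have hd : ∀ Θ, HasDerivAt (fun Θ => Phi Y c (F Y c Θ) - Phi Y c Θ) 0 Θ := by
    intro Θ
    have e1 : HasDerivAt (fun Θ => Phi Y c (F Y c Θ)) (ww Y c (F Y c Θ) * Fp Y c Θ) Θ :=
      (Phi_hasDerivAt h h0 h1.le (F Y c Θ)).comp Θ (F_hasDerivAt h h0 h1.le Θ)
    refine (e1.sub (Phi_hasDerivAt h h0 h1.le Θ)).congr_deriv ?_
    rw [ww_F h hv h0 h1, sub_self]
  have h2 := is_const_of_deriv_eq_zero (fun Θ => (hd Θ).differentiableAt)
    (fun Θ => (hd Θ).deriv) Θ 0
  simp only [Phi_zero, sub_zero] at h2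
  linarith

lemma Phi_iterate (h : IsCollar Y) (hv : HV Y v) {c : ℝ} (h0 : 0 < c) (h1 : c < 1) (n : ℕ)
    (Θ : ℝ) : Phi Y c ((F Y c)^[n] Θ) = Phi Y c Θ + n * Phi Y c (F Y c 0) := by
  induction n with
  | zero => simp
  | succ n ih =>
    rw [Function.iterate_succ_apply', Phi_F h hv h0 h1, ih]
    push_cast; ring

lemma F_gt (h : IsCollar Y) {c : ℝ} (h0 : 0 < c) (h1 : c ≤ 1) (Θ : ℝ) : Θ < F Y c Θ := by
  unfold F
  have := Real.arctan_pos.2 (S_pos h h0 h1 Θ)
  linarith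

lemma kappa_pos (h : IsCollar Y) {c : ℝ} (h0 : 0 < c) (h1 : c ≤ 1) :
    0 < Phi Y c (F Y c 0) := by
  have := Phi_strictMono h h0 h1 (F_gt h h0 h1 0)
  rwa [Phi_zero] at this

lemma omega_pos (h : IsCollar Y) {c : ℝ} (h0 : 0 < c) (h1 : c ≤ 1) :
    0 < Phi Y c (2 * π) := by
  have := Phi_strictMono h h0 h1 (by positivity : (0 : ℝ) < 2 * π)
  rwa [Phi_zero] at this

/-- The leaves close to the circle are uniformly close to it. -/
lemma S_small (h : IsCollar Y) {ε : ℝ} (hε : 0 < ε) : ∃ δ : ℝ, 0 < δ ∧ δ ≤ 1 ∧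
    ∀ c Θ, 0 < c → c < δ → S Y 1 c Θ < ε := by
  set K : Set ℂ := {z | Y z ≤ 1} ∩ {z | 1 + ε ^ 2 ≤ ‖z‖ ^ 2} with hK
  have hKc : IsCompact K :=
    (h.compact 1 zero_le_one le_rfl).inter_right (isClosed_le (by fun_prop) (by fun_prop))
  have hgt : ∀ z ∈ K, 0 < Y z := by
    intro z hz
    rw [h.pos_iff]
    have h2 : 1 + ε ^ 2 ≤ ‖z‖ ^ 2 := hz.2
    have h3 : 0 < ε ^ 2 := by positivity
    nlinarith [norm_nonneg z]
  have hcont : ContinuousOn Y K := fun z hz =>
    (h.continuousAt (hgt z hz).le hz.1).continuousWithinAt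
  have key : ∃ δ : ℝ, 0 < δ ∧ δ ≤ 1 ∧ ∀ z ∈ K, δ ≤ Y z := by
    rcases K.eq_empty_or_nonempty with hE | hne
    · exact ⟨1, one_pos, le_rfl, by rw [hE]; simp⟩
    · obtain ⟨z0, hz0, hmin⟩ := hKc.exists_isMinOn hne hcont
      exact ⟨Y z0, hgt z0 hz0, hz0.1, fun z hz => hmin hz⟩
  obtain ⟨δ, hδ, hδ1, hδK⟩ := key
  refine ⟨δ, hδ, hδ1, fun c Θ h0 hc => ?_⟩
  have hc1 : c ≤ 1 := (hc.trans_le hδ1).le
  by_contra hcon
  push Not at hcon
  have hY : Y (P Θ (S Y 1 c Θ)) = c := Y_Z h h0 hc1 Θ (σ := 1) (by norm_num)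
  have hmem : P Θ (S Y 1 c Θ) ∈ K := by
    refine ⟨by show Y _ ≤ 1; rw [hY]; exact hc1, ?_⟩
    show 1 + ε ^ 2 ≤ ‖P Θ (S Y 1 c Θ)‖ ^ 2
    rw [norm_P_sq]
    have : ε ^ 2 ≤ S Y 1 c Θ ^ 2 := pow_le_pow_left₀ hε.le hcon 2
    linarith
  have := hδK _ hmem
  rw [hY] at this
  linarith

lemma F_cont (h : IsCollar Y) : ContinuousOn (fun q : ℝ × ℝ => F Y q.1 q.2) DD := by
  unfold F
  exact continuousOn_snd.add (continuousOn_const.mul
    (Real.continuous_arctan.comp_continuousOn (S_cont h (by norm_num))))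

lemma iterate_cont (h : IsCollar Y) (n : ℕ) : ContinuousOn (fun c => (F Y c)^[n] 0) (Ioc 0 1) := by
  induction n with
  | zero => simpa using continuousOn_const
  | succ n ih =>
    have e : (fun c => (F Y c)^[n + 1] 0) = fun c => F Y c ((F Y c)^[n] 0) := by
      ext c; rw [Function.iterate_succ_apply']
    rw [e]
    have h2 : ContinuousOn (fun c => ((c, (F Y c)^[n] 0) : ℝ × ℝ)) (Ioc 0 1) :=
      continuousOn_id.prodMk ih
    exact (F_cont h).comp h2 (fun c hc => ⟨hc.1, hc.2⟩)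

/-- There is a leaf of periodic points. -/
theorem exists_periodic (h : IsCollar Y) (hv : HV Y v) : ∃ c : ℝ, 0 < c ∧ c < 1 ∧
    ∃ q : ℕ, 0 < q ∧ ∀ Θ, (F Y c)^[q] Θ = Θ + 2 * π := by
  have k0 := kappa_pos h (c := 1 / 2) (by norm_num) (by norm_num)
  have w0 := omega_pos h (c := 1 / 2) (by norm_num) (by norm_num)
  obtain ⟨q, hq⟩ := exists_nat_gt (Phi Y (1 / 2) (2 * π) / Phi Y (1 / 2) (F Y (1 / 2) 0))
  have hq1 : Phi Y (1 / 2) (2 * π) < q * Phi Y (1 / 2) (F Y (1 / 2) 0) := by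
    rwa [div_lt_iff₀ k0] at hq
  have hq0 : 0 < q := by
    rcases Nat.eq_zero_or_pos q with h5 | h5
    · rw [h5] at hq1
      simp only [Nat.cast_zero, zero_mul] at hq1
      linarith
    · exact h5
  have hbig : 2 * π < (F Y (1 / 2))^[q] 0 := by
    by_contra hcon
    push Not at hcon
    have h2 := (Phi_strictMono h (c := 1 / 2) (by norm_num) (by norm_num)).monotone hcon
    rw [Phi_iterate h hv (by norm_num) (by norm_num), Phi_zero, zero_add] at h2
    linarith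
  have hqpos : (0 : ℝ) < q := by exact_mod_cast hq0
  -- small leaves
  obtain ⟨δ, hδ, hδ1, hδS⟩ := S_small h (ε := π / q) (by positivity)
  set c0 := min (δ / 2) (1 / 2) with hc0
  have hc0pos : 0 < c0 := lt_min (by positivity) (by norm_num)
  have hc0δ : c0 < δ := lt_of_le_of_lt (min_le_left _ _) (by linarith)
  have hsmall : (F Y c0)^[q] 0 ≤ 2 * π := by
    have key : ∀ n : ℕ, (F Y c0)^[n] 0 ≤ n * (2 * π / q) := by
      intro n
      induction n with
      | zero => simp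
      | succ n ih =>
        rw [Function.iterate_succ_apply']
        set t := (F Y c0)^[n] 0
        have e1 : F Y c0 t = t + 2 * Real.arctan (S Y 1 c0 t) := rfl
        have e2 := hδS c0 t hc0pos hc0δ
        have e3 : Real.arctan (S Y 1 c0 t) < S Y 1 c0 t := by
          have := Real.lt_tan (Real.arctan_pos.2
            (S_pos h hc0pos ((min_le_right _ _).trans (by norm_num)) t))
            (Real.arctan_lt_pi_div_two _)
          rwa [Real.tan_arctan] at this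
        rw [e1]
        push_cast
        have e4 : ((n : ℝ) + 1) * (2 * π / q) = n * (2 * π / q) + 2 * (π / q) := by ring
        rw [e4]
        linarith
    have := key q
    have e5 : (q : ℝ) * (2 * π / q) = 2 * π := by field_simp
    rwa [e5] at this
  have hcont : ContinuousOn (fun c => (F Y c)^[q] 0) (Icc c0 (1 / 2)) :=
    (iterate_cont h q).mono fun c hc => ⟨hc0pos.trans_le hc.1, hc.2.trans (by norm_num)⟩
  obtain ⟨c, hc, hcq⟩ := intermediate_value_Icc (min_le_right _ _) hcont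
    (show 2 * π ∈ Icc ((F Y c0)^[q] 0) ((F Y (1 / 2))^[q] 0) from ⟨hsmall, hbig.le⟩)
  have hc0' : 0 < c := hc0pos.trans_le hc.1
  have hc1' : c < 1 := lt_of_le_of_lt hc.2 (by norm_num)
  refine ⟨c, hc0', hc1', q, hq0, fun Θ => ?_⟩
  apply (Phi_strictMono h hc0' hc1'.le).injective
  have h3 := Phi_iterate h hv hc0' hc1' q 0
  simp only at hcq
  rw [hcq, Phi_zero, zero_add] at h3
  rw [Phi_iterate h hv hc0' hc1', Phi_add h hc0' hc1'.le, h3]

/-! ### Rational leaves -/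

lemma F_strictMono (h : IsCollar Y) {c : ℝ} (h0 : 0 < c) (h1 : c ≤ 1) : StrictMono (F Y c) :=
  strictMono_of_deriv_pos fun Θ => by
    rw [(F_hasDerivAt h h0 h1 Θ).deriv]; exact Fp_pos h h0 h1 Θ

lemma S_lt (h : IsCollar Y) {c c' : ℝ} (h0 : 0 < c) (hcc : c < c') (h1 : c' ≤ 1) (Θ : ℝ) :
    S Y 1 c Θ < S Y 1 c' Θ := by
  by_contra hcon
  push Not at hcon
  have hs := S_pos h h0 (hcc.le.trans h1) Θ
  have hs' := S_pos h (h0.trans hcc) h1 Θ
  have hconv := h.convex c h0.le (hcc.le.trans h1)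
  have hz : P Θ 0 ∈ {w | Y w ≤ c} := by
    show Y (P Θ 0) ≤ c
    rw [P_zero, (h.leaf_zero _).2 (norm_exp_ofReal_mul_I Θ)]; exact h0.le
  have hz' : P Θ (S Y 1 c Θ) ∈ {w | Y w ≤ c} := by
    show Y (P Θ (S Y 1 c Θ)) ≤ c
    exact (Y_Z h h0 (hcc.le.trans h1) Θ (σ := 1) (by norm_num)).le
  set τ := S Y 1 c' Θ / S Y 1 c Θ with hτ
  have hτ0 : 0 ≤ τ := (div_pos hs' hs).le
  have hτ1 : τ ≤ 1 := (div_le_one hs).2 hcon
  have h5 := hconv hz hz' (sub_nonneg.2 hτ1) hτ0 (by ring)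
  have h6 : (1 - τ) • P Θ 0 + τ • P Θ (S Y 1 c Θ) = P Θ (S Y 1 c' Θ) := by
    rw [P_eq, P_eq Θ (S Y 1 c Θ), P_eq Θ (S Y 1 c' Θ), zero_smul, add_zero, smul_add, smul_smul,
      sub_smul, one_smul]
    have : τ * S Y 1 c Θ = S Y 1 c' Θ := by rw [hτ]; field_simp
    rw [this]; ring
  rw [h6] at h5
  have h7 : Y (P Θ (S Y 1 c' Θ)) ≤ c := h5
  have h8 : Y (P Θ (S Y 1 c' Θ)) = c' := Y_Z h (h0.trans hcc) h1 Θ (σ := 1) (by norm_num)
  rw [h8] at h7
  linarith

lemma F_lt (h : IsCollar Y) {c c' : ℝ} (h0 : 0 < c) (hcc : c < c') (h1 : c' ≤ 1) (Θ : ℝ) :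
    F Y c Θ < F Y c' Θ := by
  unfold F
  have := Real.arctan_strictMono (S_lt h h0 hcc h1 Θ)
  linarith

lemma iterate_lt (h : IsCollar Y) {c c' : ℝ} (h0 : 0 < c) (hcc : c < c') (h1 : c' ≤ 1) (n : ℕ)
    (Θ : ℝ) : (F Y c)^[n + 1] Θ < (F Y c')^[n + 1] Θ := by
  induction n with
  | zero => simpa using F_lt h h0 hcc h1 Θ
  | succ n ih =>
    rw [Function.iterate_succ_apply', Function.iterate_succ_apply' (F Y c')]
    exact (F_strictMono h h0 (hcc.le.trans h1) ih).trans (F_lt h h0 hcc h1 _)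

lemma Phi_add_nat (h : IsCollar Y) {c : ℝ} (h0 : 0 < c) (h1 : c ≤ 1) (a : ℕ) (Θ : ℝ) :
    Phi Y c (Θ + a * (2 * π)) = Phi Y c Θ + a * Phi Y c (2 * π) := by
  induction a with
  | zero => simp
  | succ a ih =>
    have : Θ + ((a + 1 : ℕ) : ℝ) * (2 * π) = (Θ + a * (2 * π)) + 2 * π := by push_cast; ring
    rw [this, Phi_add h h0 h1, ih]
    push_cast; ring

/-- The leaves with rational rotation number. -/
def Rat' (Y : ℂ → ℝ) : Set ℝ :=
  {c | 0 < c ∧ c < 1 ∧ ¬ Irrational (Phi Y c (F Y c 0) / Phi Y c (2 * π))}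

lemma rat_countable (h : IsCollar Y) (hv : HV Y v) : (Rat' Y).Countable := by
  have hex : ∀ c ∈ Rat' Y, ∃ ab : ℕ × ℕ, ∀ Θ, (F Y c)^[ab.2 + 1] Θ = Θ + ab.1 * (2 * π) := by
    intro c hc
    obtain ⟨h0, h1, hirr⟩ := hc
    rw [Irrational, not_not] at hirr
    obtain ⟨r, hr⟩ := hirr
    have hκ := kappa_pos h h0 h1.le
    have hω := omega_pos h h0 h1.le
    have hrpos : 0 < r := by
      have : (0 : ℝ) < r := by rw [hr]; positivity
      exact_mod_cast this
    have hnum : 0 < r.num := Rat.num_pos.2 hrpos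
    obtain ⟨a, ha⟩ := Int.eq_ofNat_of_zero_le hnum.le
    refine ⟨(a, r.den - 1), fun Θ => ?_⟩
    have hden : r.den - 1 + 1 = r.den := Nat.sub_add_cancel r.pos
    simp only [hden]
    apply (Phi_strictMono h h0 h1.le).injective
    rw [Phi_iterate h hv h0 h1, Phi_add_nat h h0 h1.le]
    congr 1
    have h5 : (r : ℝ) = a / r.den := by
      rw [Rat.cast_def, ha]; push_cast; rfl
    rw [h5] at hr
    have h6 : (0 : ℝ) < r.den := by exact_mod_cast r.pos
    field_simp at hr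
    linarith
  choose! g hg using hex
  refine Set.MapsTo.countable_of_injOn (f := g) (t := Set.univ) (fun _ _ => mem_univ _) ?_
    (Set.to_countable _)
  intro c hc c' hc' heq
  have e1 := hg c hc 0
  have e2 := hg c' hc' 0
  rw [heq] at e1
  rcases lt_trichotomy c c' with hlt | heq2 | hlt
  · have := iterate_lt h hc.1 hlt hc'.2.1.le (g c').2 0
    rw [e1, e2] at this
    exact absurd this (lt_irrefl _)
  · exact heq2
  · have := iterate_lt h hc'.1 hlt hc.2.1.le (g c').2 0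
    rw [e1, e2] at this
    exact absurd this (lt_irrefl _)

/-- Continuous invariant functions on an irrational leaf are constant. -/
lemma const_of_irrational (h : IsCollar Y) (hv : HV Y v) {c : ℝ} (h0 : 0 < c) (h1 : c < 1)
    (hirr : Irrational (Phi Y c (F Y c 0) / Phi Y c (2 * π))) {g : ℝ → ℝ} (hg : Continuous g)
    (hper : ∀ Θ, g (Θ + 2 * π) = g Θ) (hinv : ∀ Θ, g (F Y c Θ) = g Θ) (Θ Θ' : ℝ) : g Θ = g Θ' := by
  have hmono := Phi_strictMono h h0 h1.le
  have hcont : Continuous (Phi Y c) :=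
    continuous_iff_continuousAt.2 fun Θ => (Phi_hasDerivAt h h0 h1.le Θ).continuousAt
  have hω := omega_pos h h0 h1.le
  have hneg : ∀ (a : ℕ) Θ, Phi Y c (Θ - a * (2 * π)) = Phi Y c Θ - a * Phi Y c (2 * π) := by
    intro a Θ
    have := Phi_add_nat h h0 h1.le a (Θ - a * (2 * π))
    rw [sub_add_cancel] at this
    linarith
  have hsurj : Function.Surjective (Phi Y c) := by
    refine hcont.surjective ?_ ?_
    · rw [tendsto_atTop_atTop]
      intro b
      obtain ⟨n, hn⟩ := exists_nat_gt (b / Phi Y c (2 * π))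
      refine ⟨n * (2 * π), fun t ht => ?_⟩
      have h2 := hmono.monotone ht
      have h3 := Phi_add_nat h h0 h1.le n 0
      rw [zero_add, Phi_zero, zero_add] at h3
      rw [h3] at h2
      rw [div_lt_iff₀ hω] at hn
      linarith
    · rw [tendsto_atBot_atBot]
      intro b
      obtain ⟨n, hn⟩ := exists_nat_gt (-b / Phi Y c (2 * π))
      refine ⟨-(n * (2 * π)), fun t ht => ?_⟩
      have h2 := hmono.monotone ht
      have h3 := hneg n 0
      rw [zero_sub, Phi_zero, zero_sub] at h3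
      rw [h3] at h2
      rw [div_lt_iff₀ hω] at hn
      linarith
  set e := StrictMono.orderIsoOfSurjective (Phi Y c) hmono hsurj with he
  have he1 : ∀ t, e t = Phi Y c t := fun t => rfl
  have hec : Continuous e.symm := e.symm.continuous
  have hPe : ∀ t, Phi Y c (e.symm t) = t := fun t => e.apply_symm_apply t
  set G : ℝ → ℝ := fun t => g (e.symm t) with hG
  have hGc : Continuous G := hg.comp hec
  have hGω : ∀ t, G (t + Phi Y c (2 * π)) = G t := by
    intro t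
    have h5 : e.symm (t + Phi Y c (2 * π)) = e.symm t + 2 * π := by
      rw [OrderIso.symm_apply_eq, he1, Phi_add h h0 h1.le, hPe]
    rw [hG]
    simp only
    rw [h5, hper]
  have hGκ : ∀ t, G (t + Phi Y c (F Y c 0)) = G t := by
    intro t
    have h5 : e.symm (t + Phi Y c (F Y c 0)) = F Y c (e.symm t) := by
      rw [OrderIso.symm_apply_eq, he1, Phi_F h hv h0 h1 (e.symm t), hPe]
    rw [hG]
    simp only
    rw [h5, hinv]
  -- the closed subgroup of periods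
  have hdense := (dense_addSubgroupClosure_pair_iff (a := Phi Y c (F Y c 0))
    (b := Phi Y c (2 * π))).2 hirr
  have hclosed : IsClosed {τ : ℝ | ∀ t, G (t + τ) = G t} := by
    have : {τ : ℝ | ∀ t, G (t + τ) = G t} = ⋂ t, {τ : ℝ | G (t + τ) = G t} := by
      ext τ; simp
    rw [this]
    exact isClosed_iInter fun t => isClosed_eq (hGc.comp (by fun_prop)) continuous_const
  have hsub : (AddSubgroup.closure {Phi Y c (F Y c 0), Phi Y c (2 * π)} : Set ℝ) ⊆
      {τ : ℝ | ∀ t, G (t + τ) = G t} := by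
    intro τ hτ
    refine AddSubgroup.closure_induction (p := fun τ _ => ∀ t, G (t + τ) = G t) ?_ ?_ ?_ ?_ hτ
    · intro x hx
      rcases hx with hx | hx
      · rw [hx]; exact hGκ
      · rw [mem_singleton_iff] at hx
        rw [hx]; exact hGω
    · intro t; rw [add_zero]
    · intro a b _ _ ha hb t
      rw [← add_assoc, hb, ha]
    · intro a _ ha t
      have := ha (t + -a)
      rw [neg_add_cancel_right] at this
      exact this.symm
  have hall : ∀ τ t, G (t + τ) = G t := by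
    intro τ
    have := hclosed.closure_subset_iff.2 hsub (hdense τ)
    exact this
  have h6 := hall (Phi Y c Θ - Phi Y c Θ') (Phi Y c Θ')
  rw [add_sub_cancel] at h6
  have h7 : ∀ Θ, G (Phi Y c Θ) = g Θ := by
    intro Θ
    rw [hG]
    simp only
    rw [← he1, OrderIso.symm_apply_apply]
  rwa [h7, h7] at h6

end Pool.Agent.H719R2.PIB
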