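import Pool.Agent.H719R2.PIR.Dyn
import Pool.Agent.H719R2.PIR.Class

/-!
# Rational structures: all leaves are conics of one pencil
-/

open Set Filter Topology Complex Polynomial
open scoped ContDiff Real ComplexConjugate

namespace Pool.Agent.H719R2.PIB

open Pool.Agent.H719R2.PIR (ee)

/-- The tangent involutions of the collar are projective and depend rationally on the point: at the
point `p` of the circle the two points `p + s i p`, `p + t i p` (`s < 0 < t`) of a leaf on the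
tangent line are related by `1/s + 1/t = N(p)/D(p)`, with complex polynomials `N`, `D`, where `D`
has no zero on the circle. -/
def RationalInvolutions (Y : ℂ → ℝ) : Prop :=
  ∃ N D : ℂ[X], ∀ p : ℂ, ‖p‖ = 1 → D.eval p ≠ 0 ∧ ∀ s t : ℝ, s < 0 → 0 < t →
    Y (p + t • (I * p)) ≤ 1 → Y (p + s • (I * p)) = Y (p + t • (I * p)) →
      ((s⁻¹ + t⁻¹ : ℝ) : ℂ) = N.eval p / D.eval p

variable {Y : ℂ → ℝ}

/-- A coprime representation. -/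
lemma exists_coprime (h : RationalInvolutions Y) : ∃ N D : ℂ[X], IsCoprime N D ∧
    ∀ p : ℂ, ‖p‖ = 1 → D.eval p ≠ 0 ∧ ∀ s t : ℝ, s < 0 → 0 < t →
    Y (p + t • (I * p)) ≤ 1 → Y (p + s • (I * p)) = Y (p + t • (I * p)) →
      ((s⁻¹ + t⁻¹ : ℝ) : ℂ) = N.eval p / D.eval p := by
  obtain ⟨N, D, h⟩ := h
  have hD0 : D ≠ 0 := by
    rintro rfl
    exact (h 1 (by simp)).1 (by simp)
  obtain ⟨g, N', D', hg0, hcop, hN, hD⟩ : ∃ g N' D' : ℂ[X], g ≠ 0 ∧ IsCoprime N' D' ∧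
      N = g * N' ∧ D = g * D' := by
    obtain ⟨G, a, b, hG, h1, ⟨N', hN'⟩, ⟨D', hD'⟩⟩ : ∃ G a b : ℂ[X], G ≠ 0 ∧
        G = N * a + D * b ∧ G ∣ N ∧ G ∣ D :=
      ⟨EuclideanDomain.gcd N D, EuclideanDomain.gcdA N D, EuclideanDomain.gcdB N D,
        fun h0 => hD0 (EuclideanDomain.gcd_eq_zero_iff.1 h0).2,
        EuclideanDomain.gcd_eq_gcd_ab N D, EuclideanDomain.gcd_dvd_left N D,
        EuclideanDomain.gcd_dvd_right N D⟩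
    refine ⟨G, N', D', hG, ⟨a, b, ?_⟩, hN', hD'⟩
    apply mul_left_cancel₀ hG
    rw [mul_one]
    conv_rhs => rw [h1]
    rw [hN', hD']
    ring
  refine ⟨N', D', hcop, fun p hp => ?_⟩
  obtain ⟨h1, h2⟩ := h p hp
  rw [hD, eval_mul] at h1
  have h3 := left_ne_zero_of_mul h1
  refine ⟨right_ne_zero_of_mul h1, fun s t hs ht h5 h6 => ?_⟩
  rw [h2 s t hs ht h5 h6, hN, hD, eval_mul, eval_mul, mul_div_mul_left _ _ h3]

/-! ### The structure -/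

lemma point_eq (Θ t : ℝ) : ee Θ + t • (I * ee Θ) = P Θ t := by
  have := P_eq' Θ t
  exact this

/-- The data extracted from rational involutions. -/
theorem exists_roots (h : IsCollar Y) (hr : RationalInvolutions Y) : ∃ ξ₁ ξ₂ : ℂ, ‖ξ₁‖ < 1 ∧
    ‖ξ₂‖ < 1 ∧ HV Y (fun Θ => 2 * (ξ₁ / (ee Θ - ξ₁)).im + 2 * (ξ₂ / (ee Θ - ξ₂)).im) := by
  obtain ⟨N, D, hcop, hND⟩ := exists_coprime hr
  have hden : ∀ Θ, D.eval (ee Θ) ≠ 0 := fun Θ => (hND _ (PIR.ee_norm Θ)).1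
  have hval : ∀ c Θ, 0 < c → c ≤ 1 →
      ((yy Y c Θ - xx Y c Θ : ℝ) : ℂ) = N.eval (ee Θ) / D.eval (ee Θ) := by
    intro c Θ h0 h1
    have hs := S_neg h h0 h1 Θ
    have ht := S_pos h h0 h1 Θ
    have e1 : Y (P Θ (S Y (-1) c Θ)) = c := Y_Z h h0 h1 Θ (σ := -1) (by norm_num)
    have e2 : Y (P Θ (S Y 1 c Θ)) = c := Y_Z h h0 h1 Θ (σ := 1) (by norm_num)
    have h5 := (hND _ (PIR.ee_norm Θ)).2 _ _ hs ht
      (by rw [point_eq, e2]; exact h1) (by rw [point_eq, point_eq, e1, e2])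
    rw [← h5]
    unfold yy xx
    congr 1
    ring
  set v : ℝ → ℝ := fun Θ => (N.eval (ee Θ) / D.eval (ee Θ)).re with hvdef
  have hv : HV Y v := by
    intro c Θ h0 h1
    have h5 := congrArg Complex.re (hval c Θ h0 h1)
    rw [ofReal_re] at h5
    simp only [hvdef]
    rw [← h5]; ring
  have hreal : ∀ Θ, N.eval (ee Θ) / D.eval (ee Θ) = v Θ := by
    intro Θ
    rw [← hval 1 Θ one_pos le_rfl]
    have := hv 1 Θ one_pos le_rfl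
    congr 1
    linarith
  obtain ⟨c, h0, h1, q, hq, hper⟩ := exists_periodic h hv
  have hleaf : PIR.Leaf N D q (F Y c) (S Y 1 c) := by
    refine ⟨hq, fun Θ => S_pos h h0 h1.le Θ, fun Θ => rfl, hper, hden, fun Θ => ?_⟩
    rw [← hval c (F Y c Θ) h0 h1.le]
    congr 1
    unfold yy xx
    rw [S_F h h0 h1.le, inv_neg]
    ring
  have hcurve := hleaf.curve
  have hRS : PIR.RS N D := by
    refine ⟨hcop, hden, fun Θ => ⟨v Θ, hreal Θ⟩, (hcurve.at_zero hcop).1, (hcurve.at_zero hcop).2,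
      fun ξ hξ0 hξ => hcurve.residue hcop hξ0 hξ⟩
  obtain ⟨ξ₁, ξ₂, h1', h2', hcl⟩ := hRS.classify
  refine ⟨ξ₁, ξ₂, h1', h2', ?_⟩
  intro c Θ hc0 hc1
  have h5 := hcl Θ
  rw [← hval c Θ hc0 hc1] at h5
  have h6 : yy Y c Θ - xx Y c Θ = 2 * (ξ₁ / (ee Θ - ξ₁)).im + 2 * (ξ₂ / (ee Θ - ξ₂)).im := by
    exact_mod_cast h5
  linarith

/-! ### The pencil -/

/-- The constant coefficient. -/
noncomputable def kap (ξ₁ ξ₂ : ℂ) : ℝ := 1 + normSq (ξ₁ + ξ₂) + normSq (ξ₁ * ξ₂)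

/-- The linear coefficient. -/
noncomputable def eta (ξ₁ ξ₂ : ℂ) : ℂ := -2 * (conj (ξ₁ + ξ₂) + (ξ₁ + ξ₂) * conj (ξ₁ * ξ₂))

/-- The quadratic coefficient. -/
noncomputable def zet (ξ₁ ξ₂ : ℂ) : ℂ := 2 * conj (ξ₁ * ξ₂)

/-- The quadratic polynomial. -/
noncomputable def qq (ξ₁ ξ₂ z : ℂ) : ℝ := kap ξ₁ ξ₂ + (eta ξ₁ ξ₂ * z + zet ξ₁ ξ₂ * z ^ 2).re

lemma circle_coord (Θ : ℝ) : (ee Θ).re ^ 2 + (ee Θ).im ^ 2 = 1 := by
  have h := PIR.ee_norm Θ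
  have h2 : normSq (ee Θ) = 1 := by rw [normSq_eq_norm_sq, h]; norm_num
  rw [normSq_apply] at h2
  linarith

lemma qq_circle (ξ₁ ξ₂ : ℂ) (Θ : ℝ) :
    qq ξ₁ ξ₂ (ee Θ) = normSq (ee Θ - ξ₁) * normSq (ee Θ - ξ₂) := by
  have h := circle_coord Θ
  unfold qq kap eta zet
  simp only [normSq_apply, add_re, add_im, mul_re, mul_im, sub_re, sub_im, conj_re, conj_im,
    neg_re, neg_im, re_ofNat, im_ofNat, pow_two]
  set x := (ee Θ).re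
  set y := (ee Θ).im
  set a := ξ₁.re
  set b := ξ₁.im
  set c := ξ₂.re
  set d := ξ₂.im
  have h1 : (x - a) * (x - a) + (y - b) * (y - b) = 1 - 2 * (a * x + b * y) + (a ^ 2 + b ^ 2) := by
    linear_combination h
  have h2 : (x - c) * (x - c) + (y - d) * (y - d) = 1 - 2 * (c * x + d * y) + (c ^ 2 + d ^ 2) := by
    linear_combination h
  rw [h1, h2]
  linear_combination (2 * (a * c + b * d)) * (- h)

lemma v_mul_qq {ξ₁ ξ₂ : ℂ} (h1 : ‖ξ₁‖ < 1) (h2 : ‖ξ₂‖ < 1) (Θ : ℝ) :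
    (2 * (ξ₁ / (ee Θ - ξ₁)).im + 2 * (ξ₂ / (ee Θ - ξ₂)).im) * qq ξ₁ ξ₂ (ee Θ) =
      (eta ξ₁ ξ₂ * ee Θ + 2 * (zet ξ₁ ξ₂ * ee Θ ^ 2)).im := by
  rw [qq_circle]
  have h := circle_coord Θ
  have key : ∀ ξ : ℂ, ‖ξ‖ < 1 → (ξ / (ee Θ - ξ)).im * normSq (ee Θ - ξ) =
      ξ.im * (ee Θ).re - ξ.re * (ee Θ).im := by
    intro ξ hξ
    have hne : ee Θ - ξ ≠ 0 := by
      intro h
      have : ee Θ = ξ := sub_eq_zero.1 h
      rw [← this, PIR.ee_norm] at hξ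
      exact lt_irrefl _ hξ
    have hn : normSq (ee Θ - ξ) ≠ 0 := (normSq_pos.2 hne).ne'
    rw [div_im]
    field_simp
    simp only [sub_re, sub_im]
    ring
  have k1 := key ξ₁ h1
  have k2 := key ξ₂ h2
  have e1 : (2 * (ξ₁ / (ee Θ - ξ₁)).im + 2 * (ξ₂ / (ee Θ - ξ₂)).im) *
      (normSq (ee Θ - ξ₁) * normSq (ee Θ - ξ₂)) =
      2 * ((ξ₁ / (ee Θ - ξ₁)).im * normSq (ee Θ - ξ₁)) * normSq (ee Θ - ξ₂) +
      2 * ((ξ₂ / (ee Θ - ξ₂)).im * normSq (ee Θ - ξ₂)) * normSq (ee Θ - ξ₁) := by ring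
  rw [e1, k1, k2]
  unfold eta zet
  simp only [normSq_apply, add_re, add_im, mul_re, mul_im, sub_re, sub_im, conj_re, conj_im,
    neg_re, neg_im, re_ofNat, im_ofNat, pow_two]
  set x := (ee Θ).re
  set y := (ee Θ).im
  set a := ξ₁.re
  set b := ξ₁.im
  set c := ξ₂.re
  set d := ξ₂.im
  linear_combination (2 * (b * x - a * y) + 2 * (d * x - c * y)) * h

lemma qq_P (ξ₁ ξ₂ : ℂ) (Θ t : ℝ) : qq ξ₁ ξ₂ (P Θ t) = qq ξ₁ ξ₂ (ee Θ) -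
    (eta ξ₁ ξ₂ * ee Θ + 2 * (zet ξ₁ ξ₂ * ee Θ ^ 2)).im * t - (zet ξ₁ ξ₂ * ee Θ ^ 2).re * t ^ 2 := by
  have e : P Θ t = ee Θ * (1 + t * I) := rfl
  rw [e]
  unfold qq
  have e1 : eta ξ₁ ξ₂ * (ee Θ * (1 + t * I)) + zet ξ₁ ξ₂ * (ee Θ * (1 + t * I)) ^ 2 =
      (eta ξ₁ ξ₂ * ee Θ + zet ξ₁ ξ₂ * ee Θ ^ 2) +
        (t : ℂ) * (I * (eta ξ₁ ξ₂ * ee Θ + 2 * (zet ξ₁ ξ₂ * ee Θ ^ 2))) -
        ((t ^ 2 : ℝ) : ℂ) * (zet ξ₁ ξ₂ * ee Θ ^ 2) := by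
    push_cast
    linear_combination (zet ξ₁ ξ₂ * ee Θ ^ 2 * (t : ℂ) ^ 2) * I_sq
  rw [e1, sub_re, add_re, re_ofReal_mul, re_ofReal_mul, I_mul_re]
  ring

section

variable {ξ₁ ξ₂ : ℂ}

lemma qq_pos (h1 : ‖ξ₁‖ < 1) (h2 : ‖ξ₂‖ < 1) (Θ : ℝ) : 0 < qq ξ₁ ξ₂ (ee Θ) := by
  rw [qq_circle]
  have key : ∀ ξ : ℂ, ‖ξ‖ < 1 → 0 < normSq (ee Θ - ξ) := by
    intro ξ hξ
    rw [normSq_pos]
    intro h
    have : ee Θ = ξ := sub_eq_zero.1 h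
    rw [← this, PIR.ee_norm] at hξ
    exact lt_irrefl _ hξ
  exact mul_pos (key _ h1) (key _ h2)

/-- The parameter of the conic of the pencil through the point of the leaf. -/
noncomputable def JJ (Y : ℂ → ℝ) (ξ₁ ξ₂ : ℂ) (c Θ : ℝ) : ℝ :=
  qq ξ₁ ξ₂ (Z Y (-1) c Θ) / S Y (-1) c Θ ^ 2

/-- The linear coefficient on the tangent line. -/
noncomputable def Bm (ξ₁ ξ₂ : ℂ) (Θ : ℝ) : ℝ :=
  (eta ξ₁ ξ₂ * ee Θ + 2 * (zet ξ₁ ξ₂ * ee Θ ^ 2)).im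

/-- The quadratic coefficient on the tangent line. -/
noncomputable def Cm (ξ₁ ξ₂ : ℂ) (Θ : ℝ) : ℝ := (zet ξ₁ ξ₂ * ee Θ ^ 2).re

lemma JJ_eq (h : IsCollar Y) {c : ℝ} (h0 : 0 < c) (h1 : c ≤ 1) (Θ : ℝ) :
    JJ Y ξ₁ ξ₂ c Θ = qq ξ₁ ξ₂ (ee Θ) * xx Y c Θ ^ 2 + Bm ξ₁ ξ₂ Θ * xx Y c Θ - Cm ξ₁ ξ₂ Θ := by
  have hs := (S_neg h h0 h1 Θ).ne
  unfold JJ Z xx
  rw [qq_P]
  unfold Bm Cm
  field_simp
  ring

lemma JJ_F_eq (h : IsCollar Y) {c : ℝ} (h0 : 0 < c) (h1 : c ≤ 1) (Θ : ℝ) :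
    JJ Y ξ₁ ξ₂ c (F Y c Θ) =
      qq ξ₁ ξ₂ (ee Θ) * yy Y c Θ ^ 2 - Bm ξ₁ ξ₂ Θ * yy Y c Θ - Cm ξ₁ ξ₂ Θ := by
  have hs := (S_pos h h0 h1 Θ).ne'
  unfold JJ
  rw [Z_F h h0 h1, S_F h h0 h1, neg_sq]
  unfold Z yy
  rw [qq_P]
  unfold Bm Cm
  field_simp

lemma Bm_eq (h1 : ‖ξ₁‖ < 1) (h2 : ‖ξ₂‖ < 1) (Θ : ℝ) :
    Bm ξ₁ ξ₂ Θ = (2 * (ξ₁ / (ee Θ - ξ₁)).im + 2 * (ξ₂ / (ee Θ - ξ₂)).im) * qq ξ₁ ξ₂ (ee Θ) :=
  (v_mul_qq h1 h2 Θ).symm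

lemma JJ_inv (h : IsCollar Y) (h1' : ‖ξ₁‖ < 1) (h2' : ‖ξ₂‖ < 1)
    (hv : HV Y (fun Θ => 2 * (ξ₁ / (ee Θ - ξ₁)).im + 2 * (ξ₂ / (ee Θ - ξ₂)).im))
    {c : ℝ} (h0 : 0 < c) (h1 : c ≤ 1) (Θ : ℝ) : JJ Y ξ₁ ξ₂ c (F Y c Θ) = JJ Y ξ₁ ξ₂ c Θ := by
  rw [JJ_F_eq h h0 h1, JJ_eq h h0 h1, Bm_eq h1' h2']
  have := hv c Θ h0 h1
  simp only at this
  rw [this]
  ring

lemma qq_continuous (ξ₁ ξ₂ : ℂ) : Continuous (qq ξ₁ ξ₂) := by
  unfold qq; fun_prop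

lemma JJ_cont (h : IsCollar Y) : ContinuousOn (fun q : ℝ × ℝ => JJ Y ξ₁ ξ₂ q.1 q.2) DD := by
  unfold JJ
  refine ContinuousOn.div ((qq_continuous ξ₁ ξ₂).comp_continuousOn
    (Z_continuousOn h (by norm_num))) ((S_cont h (by norm_num)).pow 2) ?_
  intro q hq
  exact pow_ne_zero 2 (S_neg h hq.1 hq.2 q.2).ne

lemma JJ_periodic (c Θ : ℝ) : JJ Y ξ₁ ξ₂ c (Θ + 2 * π) = JJ Y ξ₁ ξ₂ c Θ := by
  unfold JJ; rw [Z_periodic, S_periodic]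

/-- The leaves are contained in conics of the pencil. -/
theorem JJ_const (h : IsCollar Y) (h1' : ‖ξ₁‖ < 1) (h2' : ‖ξ₂‖ < 1)
    (hv : HV Y (fun Θ => 2 * (ξ₁ / (ee Θ - ξ₁)).im + 2 * (ξ₂ / (ee Θ - ξ₂)).im))
    {c : ℝ} (h0 : 0 < c) (h1 : c ≤ 1) (Θ Θ' : ℝ) : JJ Y ξ₁ ξ₂ c Θ = JJ Y ξ₁ ξ₂ c Θ' := by
  by_contra hne
  have hcont : ContinuousOn (fun t => JJ Y ξ₁ ξ₂ t Θ - JJ Y ξ₁ ξ₂ t Θ') (Ioc 0 1) := by
    refine ContinuousOn.sub ?_ ?_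
    · exact (JJ_cont h).comp (f := fun t : ℝ => ((t, Θ) : ℝ × ℝ)) (by fun_prop)
        (fun t ht => ⟨ht.1, ht.2⟩)
    · exact (JJ_cont h).comp (f := fun t : ℝ => ((t, Θ') : ℝ × ℝ)) (by fun_prop)
        (fun t ht => ⟨ht.1, ht.2⟩)
  have h2 : ∀ᶠ t in 𝓝[Ioc 0 1] c, JJ Y ξ₁ ξ₂ t Θ - JJ Y ξ₁ ξ₂ t Θ' ≠ 0 :=
    (hcont c ⟨h0, h1⟩).eventually_ne (sub_ne_zero.2 hne)
  rw [eventually_nhdsWithin_iff] at h2
  obtain ⟨ε, hε, hball⟩ := Metric.eventually_nhds_iff.1 h2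
  have hlt : max 0 (c - ε) < c := max_lt h0 (by linarith)
  obtain ⟨t, ht, hta, htb⟩ := ((rat_countable h hv).dense_compl ℝ).exists_between hlt
  have ht0 : 0 < t := lt_of_le_of_lt (le_max_left _ _) hta
  have ht1 : t < 1 := lt_of_lt_of_le htb h1
  have htε : c - ε < t := lt_of_le_of_lt (le_max_right _ _) hta
  have hirr : Irrational (Phi Y t (F Y t 0) / Phi Y t (2 * π)) := by
    by_contra hcon
    exact ht ⟨ht0, ht1, hcon⟩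
  have h3 := const_of_irrational h hv ht0 ht1 hirr (g := fun Θ => JJ Y ξ₁ ξ₂ t Θ)
    (slice (JJ_cont h) ht0 ht1.le) (fun Θ => JJ_periodic t Θ)
    (fun Θ => JJ_inv h h1' h2' hv ht0 ht1.le Θ) Θ Θ'
  refine hball (y := t) ?_ ⟨ht0, ht1.le⟩ (sub_eq_zero.2 h3)
  rw [Real.dist_eq, abs_lt]
  constructor <;> linarith

end

lemma exists_ee {p : ℂ} (hp : ‖p‖ = 1) : ∃ Θ, p = ee Θ := by
  refine ⟨arg p, ?_⟩
  have h1 := Complex.norm_mul_exp_arg_mul_I p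
  rw [hp, ofReal_one, one_mul] at h1
  exact h1.symm

/-- A direction in which a quadratic term is minimal. -/
lemma exists_min_dir (ζ : ℂ) : ∃ Θ, (ζ * ee Θ ^ 2).re = -‖ζ‖ := by
  refine ⟨(π - arg ζ) / 2, ?_⟩
  have e1 : ee ((π - arg ζ) / 2) ^ 2 = exp (((π : ℂ) - arg ζ) * I) := by
    unfold PIR.ee
    rw [← exp_nat_mul]; congr 1; push_cast; ring
  have e2 : ζ * ee ((π - arg ζ) / 2) ^ 2 = ((-‖ζ‖ : ℝ) : ℂ) := by
    rw [e1, sub_mul, exp_sub, exp_pi_mul_I]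
    nth_rewrite 1 [← norm_mul_exp_arg_mul_I ζ]
    have : exp ((arg ζ : ℂ) * I) ≠ 0 := exp_ne_zero _
    push_cast
    field_simp
  rw [e2, ofReal_re]

/-- **Rigidity for rational structures.** -/
theorem rational_rigidity (h : IsCollar Y) (hr : RationalInvolutions Y) :
    ∃ (κ : ℝ) (η ζ : ℂ), (∀ p : ℂ, ‖p‖ = 1 → 0 < κ + (η * p + ζ * p ^ 2).re) ∧
      ∀ c, 0 ≤ c → c ≤ 1 → ∃ s : ℝ, 0 ≤ s ∧ s * ‖ζ‖ < 1 ∧
        {z : ℂ | Y z = c} = {z : ℂ | normSq z - 1 = s * (κ + (η * z + ζ * z ^ 2).re)} := by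
  obtain ⟨ξ₁, ξ₂, h1', h2', hv⟩ := exists_roots h hr
  refine ⟨kap ξ₁ ξ₂, eta ξ₁ ξ₂, zet ξ₁ ξ₂, ?_, ?_⟩
  · intro p hp
    obtain ⟨Θ, rfl⟩ := exists_ee hp
    exact qq_pos h1' h2' Θ
  intro c h0 h1
  rcases eq_or_lt_of_le h0 with hc0 | hc0
  · refine ⟨0, le_rfl, by simp, ?_⟩
    ext z
    simp only [mem_ofPred_eq, ← hc0, zero_mul]
    rw [h.leaf_zero, normSq_eq_norm_sq]
    constructor
    · intro h5; rw [h5]; norm_num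
    · intro h5
      have : ‖z‖ ^ 2 = 1 := by linarith
      exact (pow_eq_one_iff_of_nonneg (norm_nonneg z) (by norm_num)).1 this
  set k := JJ Y ξ₁ ξ₂ c 0 with hk
  have hkk : ∀ Θ, JJ Y ξ₁ ξ₂ c Θ = k := fun Θ => JJ_const h h1' h2' hv hc0 h1 Θ 0
  have hkey : ∀ Θ, k = qq ξ₁ ξ₂ (ee Θ) * (xx Y c Θ * yy Y c Θ) - Cm ξ₁ ξ₂ Θ := by
    intro Θ
    rw [← hkk Θ, JJ_eq h hc0 h1, Bm_eq h1' h2']
    have := hv c Θ hc0 h1
    simp only at this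
    rw [this]; ring
  have hkpos : ‖zet ξ₁ ξ₂‖ < k := by
    obtain ⟨Θ, hΘ⟩ := exists_min_dir (zet ξ₁ ξ₂)
    rw [hkey Θ]
    unfold Cm
    rw [hΘ]
    have e1 := qq_pos h1' h2' Θ
    have e2 := xx_pos h hc0 h1 Θ
    have e3 := yy_pos h hc0 h1 Θ
    have : 0 < qq ξ₁ ξ₂ (ee Θ) * (xx Y c Θ * yy Y c Θ) := by positivity
    linarith
  have hk0 : 0 < k := lt_of_le_of_lt (norm_nonneg _) hkpos
  -- the equation on the leaf
  have hleaf : ∀ z, Y z = c → normSq z - 1 = 1 / k * qq ξ₁ ξ₂ z := by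
    intro z hz
    have hz1 : 1 < ‖z‖ := h.pos_iff.1 (by rw [hz]; exact hc0)
    have hsq : 0 < ‖z‖ ^ 2 - 1 := by nlinarith
    obtain ⟨Θ, hΘ⟩ := exists_eq_P hz1 (-Real.sqrt (‖z‖ ^ 2 - 1)) (by
      rw [neg_sq, Real.sq_sqrt hsq.le])
    have hlt : 0 < Real.sqrt (‖z‖ ^ 2 - 1) := Real.sqrt_pos.2 hsq
    have hS : -Real.sqrt (‖z‖ ^ 2 - 1) = S Y (-1) c Θ :=
      S_unique h (by norm_num) hc0 h1 (by linarith) (by rw [← hΘ, hz])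
    have hzZ : z = Z Y (-1) c Θ := by rw [hΘ, hS, Z]
    have hs := (S_neg h hc0 h1 Θ).ne
    have h5 := hkk Θ
    unfold JJ at h5
    rw [hzZ]
    have h6 : normSq (Z Y (-1) c Θ) - 1 = S Y (-1) c Θ ^ 2 := by
      rw [Z, normSq_P]; ring
    rw [h6, ← h5]
    have h7 : qq ξ₁ ξ₂ (Z Y (-1) c Θ) ≠ 0 := by
      intro h0
      rw [h0, zero_div] at h5
      exact hk0.ne h5
    field_simp
  refine ⟨1 / k, by positivity, ?_, ?_⟩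
  · rw [one_div, inv_mul_lt_iff₀ hk0, mul_one]
    exact hkpos
  ext z
  simp only [mem_ofPred_eq]
  constructor
  · exact hleaf z
  · intro hz
    have hz' : normSq z - 1 = 1 / k * qq ξ₁ ξ₂ z := hz
    rcases lt_or_ge 1 ‖z‖ with hz1 | hz1
    · have hsq : 0 < ‖z‖ ^ 2 - 1 := by nlinarith
      obtain ⟨Θ, hΘ⟩ := exists_eq_P hz1 (-Real.sqrt (‖z‖ ^ 2 - 1)) (by
        rw [neg_sq, Real.sq_sqrt hsq.le])
      set τ := Real.sqrt (‖z‖ ^ 2 - 1) with hτ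
      have hτ0 : 0 < τ := Real.sqrt_pos.2 hsq
      have e1 := hkk Θ
      rw [JJ_eq h hc0 h1] at e1
      have e2 : τ ^ 2 = 1 / k * qq ξ₁ ξ₂ z := by
        rw [← hz', normSq_eq_norm_sq, hτ, Real.sq_sqrt hsq.le]
      rw [hΘ, qq_P] at e2
      have e3 : qq ξ₁ ξ₂ (ee Θ) * τ⁻¹ ^ 2 + Bm ξ₁ ξ₂ Θ * τ⁻¹ - Cm ξ₁ ξ₂ Θ = k := by
        unfold Bm Cm
        field_simp at e2 ⊢
        linarith
      have e4 : (τ⁻¹ - xx Y c Θ) * (qq ξ₁ ξ₂ (ee Θ) * (τ⁻¹ + xx Y c Θ) + Bm ξ₁ ξ₂ Θ) = 0 := by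
        linear_combination e3 - e1
      have e5 : 0 < qq ξ₁ ξ₂ (ee Θ) * (τ⁻¹ + xx Y c Θ) + Bm ξ₁ ξ₂ Θ := by
        rw [Bm_eq h1' h2']
        have e6 := hv c Θ hc0 h1
        simp only at e6
        have e7 := qq_pos h1' h2' Θ
        have e8 := yy_pos h hc0 h1 Θ
        rw [e6] at e8
        have e9 : 0 < τ⁻¹ := inv_pos.2 hτ0
        have e10 : qq ξ₁ ξ₂ (ee Θ) * (τ⁻¹ + xx Y c Θ) +
            (2 * (ξ₁ / (ee Θ - ξ₁)).im + 2 * (ξ₂ / (ee Θ - ξ₂)).im) * qq ξ₁ ξ₂ (ee Θ) =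
            qq ξ₁ ξ₂ (ee Θ) * (τ⁻¹ + (xx Y c Θ +
              (2 * (ξ₁ / (ee Θ - ξ₁)).im + 2 * (ξ₂ / (ee Θ - ξ₂)).im))) := by ring
        rw [e10]
        positivity
      have e6 := (mul_eq_zero.1 e4).resolve_right e5.ne'
      have e7 : -τ = S Y (-1) c Θ := by
        have e8 : τ⁻¹ = -(S Y (-1) c Θ)⁻¹ := by
          have : xx Y c Θ = -(S Y (-1) c Θ)⁻¹ := rfl
          linarith
        have hs := (S_neg h hc0 h1 Θ).ne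
        have : τ = -S Y (-1) c Θ := by
          have h9 := congrArg (fun x : ℝ => x⁻¹) e8
          simp only [inv_inv] at h9
          rw [h9, inv_neg, inv_inv]
        linarith
      rw [hΘ, e7]
      exact Y_Z h hc0 h1 Θ (by norm_num)
    · exfalso
      -- a direction
      obtain ⟨w, hw, hzw⟩ : ∃ w : ℂ, ‖w‖ = 1 ∧ z = (‖z‖ : ℂ) * w := by
        refine ⟨exp (arg z * I), norm_exp_ofReal_mul_I _, (norm_mul_exp_arg_mul_I z).symm⟩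
      obtain ⟨t1, ht1, hY1⟩ := exists_ray h hc0.le h1 hw
      obtain ⟨t2, ht2, hY2⟩ := exists_ray h hc0.le h1 (w := -w) (by rw [norm_neg]; exact hw)
      have hgt : ∀ (t : ℝ) (u : ℂ), 0 < t → ‖u‖ = 1 → Y ((t : ℂ) * u) = c → 1 < t := by
        intro t u ht hu hYu
        have := h.pos_iff.1 (by rw [hYu]; exact hc0 : 0 < Y ((t : ℂ) * u))
        rwa [norm_mul, hu, mul_one, norm_real, Real.norm_eq_abs, abs_of_pos ht] at this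
      have g1 := hgt t1 w ht1 hw hY1
      have g2 := hgt t2 (-w) ht2 (by rw [norm_neg]; exact hw) hY2
      set b1 := (eta ξ₁ ξ₂ * w).re with hb1
      set b2 := (zet ξ₁ ξ₂ * w ^ 2).re with hb2
      have hform : ∀ t : ℝ, qq ξ₁ ξ₂ ((t : ℂ) * w) = kap ξ₁ ξ₂ + (t * b1 + t ^ 2 * b2) := by
        intro t
        unfold qq
        have e : eta ξ₁ ξ₂ * ((t : ℂ) * w) + zet ξ₁ ξ₂ * ((t : ℂ) * w) ^ 2 =
            (t : ℂ) * (eta ξ₁ ξ₂ * w) + ((t ^ 2 : ℝ) : ℂ) * (zet ξ₁ ξ₂ * w ^ 2) := by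
          push_cast; ring
        rw [e, add_re, re_ofReal_mul, re_ofReal_mul]
      have hns : ∀ t : ℝ, normSq ((t : ℂ) * w) = t ^ 2 := by
        intro t
        rw [normSq_eq_norm_sq, norm_mul, hw, mul_one, norm_real, Real.norm_eq_abs, sq_abs]
      have q1 := hleaf _ hY1
      rw [hform, hns] at q1
      have hY2' : Y (((-t2 : ℝ) : ℂ) * w) = c := by
        rw [← hY2]; congr 1; push_cast; ring
      have q2 := hleaf _ hY2'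
      rw [hform, hns] at q2
      have q3 := hz'
      rw [hzw, hform, hns] at q3
      set τ0 := ‖z‖ with hτ0
      have hτ : 0 ≤ τ0 := norm_nonneg z
      set s := 1 / k with hs
      have hspos : 0 < s := by positivity
      have hkap : 0 < kap ξ₁ ξ₂ := by
        unfold kap
        have := normSq_nonneg (ξ₁ + ξ₂)
        have := normSq_nonneg (ξ₁ * ξ₂)
        linarith
      have r1 : (t1 - τ0) * ((1 - s * b2) * (t1 + τ0) - s * b1) = 0 := by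
        linear_combination q1 - q3
      have r2 : (-t2 - τ0) * ((1 - s * b2) * (-t2 + τ0) - s * b1) = 0 := by
        linear_combination q2 - q3
      have r1' := (mul_eq_zero.1 r1).resolve_left (by linarith [g1] |> fun h => ne_of_gt h)
      have r2' := (mul_eq_zero.1 r2).resolve_left (by
        have : -t2 - τ0 < 0 := by linarith
        exact this.ne)
      have r3 : (1 - s * b2) * (t1 + t2) = 0 := by linear_combination r1' - r2'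
      have r4 : 1 - s * b2 = 0 := (mul_eq_zero.1 r3).resolve_right (by linarith [g1] |> fun h => ne_of_gt h)
      have r5 : s * b1 = 0 := by rw [r4] at r1'; linarith
      have r6 : -1 - s * kap ξ₁ ξ₂ = 0 := by
        linear_combination q3 - τ0 ^ 2 * r4 + τ0 * r5
      have : 0 < s * kap ξ₁ ξ₂ := by positivity
      linarith

end Pool.Agent.H719R2.PIB
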