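import Pool.Agent.H719R2.PIR.Place

/-!
# The field of germs along an ultrafilter

A circle map all of whose points are periodic, satisfying the billiard recurrence with a rational
structure, gives a curve in the sense of `Curve` over the field of germs.
-/

open Polynomial Filter

namespace Pool.Agent.H719R2.PIR

/-- The field of germs. -/
abbrev GG := Germ (hyperfilter ℕ : Filter ℕ) ℂ

/-- The germ of a function. -/
noncomputable def gm : (ℕ → ℂ) →+* GG := Germ.coeRingHom (hyperfilter ℕ : Filter ℕ)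

/-- The constants. -/
noncomputable def cst : ℂ →+* GG := gm.comp (Pi.constRingHom ℕ ℂ)

lemma gm_eq {f g : ℕ → ℂ} : gm f = gm g ↔ ∀ᶠ n in (hyperfilter ℕ : Filter ℕ), f n = g n :=
  Germ.coe_eq

lemma cst_eq (c : ℂ) : cst c = gm (fun _ => c) := rfl

lemma eval₂_gm (f : ℕ → ℂ) (P : ℂ[X]) : eval₂ cst (gm f) P = gm (fun n => P.eval (f n)) := by
  unfold cst
  rw [← hom_eval₂]
  congr 1
  ext n
  have := hom_eval₂ P (Pi.constRingHom ℕ ℂ) (Pi.evalRingHom (fun _ : ℕ => ℂ) n) f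
  simp only [Pi.evalRingHom_apply] at this
  rw [this]
  rfl

lemma gm_ne_zero {f : ℕ → ℂ} (hf : ∀ n, f n ≠ 0) : gm f ≠ 0 := by
  rw [← map_zero gm, Ne, gm_eq]
  intro h
  obtain ⟨n, hn⟩ := h.exists
  exact hf n hn

lemma gm_div (f g : ℕ → ℂ) : gm f / gm g = gm (fun n => f n / g n) :=
  (Germ.coe_div f g).symm

/-- The unit vector. -/
noncomputable def ee (Θ : ℝ) : ℂ := Complex.exp (Θ * Complex.I)

lemma ee_ne (Θ : ℝ) : ee Θ ≠ 0 := Complex.exp_ne_zero _

lemma ee_add_two_pi (Θ : ℝ) : ee (Θ + 2 * Real.pi) = ee Θ := by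
  unfold ee
  have : ((Θ + 2 * Real.pi : ℝ) : ℂ) * Complex.I = Θ * Complex.I + 2 * Real.pi * Complex.I := by
    push_cast; ring
  rw [this, Complex.exp_periodic]

/-- The step in terms of the cotangent of the half angle. -/
lemma ee_step {Θ s : ℝ} : (1 - s * Complex.I) * ee (Θ + 2 * Real.arctan s) =
    (1 + s * Complex.I) * ee Θ := by
  have h1 : Real.cos (2 * Real.arctan s) = (1 - s ^ 2) / (1 + s ^ 2) := by
    rw [Real.cos_two_mul, Real.cos_sq_arctan]
    have : (0 : ℝ) < 1 + s ^ 2 := by positivity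
    field_simp; ring
  have h2 : Real.sin (2 * Real.arctan s) = 2 * s / (1 + s ^ 2) := by
    rw [Real.sin_two_mul, Real.sin_arctan, Real.cos_arctan]
    have h3 : (0 : ℝ) < 1 + s ^ 2 := by positivity
    have h4 : Real.sqrt (1 + s ^ 2) * Real.sqrt (1 + s ^ 2) = 1 + s ^ 2 :=
      Real.mul_self_sqrt h3.le
    have h5 : Real.sqrt (1 + s ^ 2) ≠ 0 := (Real.sqrt_pos.2 h3).ne'
    field_simp
    rw [Real.sq_sqrt h3.le]
  have h3 : ee (Θ + 2 * Real.arctan s) = ee Θ * (((1 - s ^ 2) / (1 + s ^ 2) : ℝ)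
      + (2 * s / (1 + s ^ 2) : ℝ) * Complex.I) := by
    unfold ee
    have : ((Θ + 2 * Real.arctan s : ℝ) : ℂ) * Complex.I =
      Θ * Complex.I + ((2 * Real.arctan s : ℝ) : ℂ) * Complex.I := by push_cast; ring
    rw [this, Complex.exp_add, Complex.exp_mul_I ((2 * Real.arctan s : ℝ) : ℂ),
      ← Complex.ofReal_cos, ← Complex.ofReal_sin, h1, h2]
  rw [h3]
  have h5 : (1 + (s : ℂ) ^ 2) ≠ 0 := by
    have : (0 : ℝ) < 1 + s ^ 2 := by positivity
    exact_mod_cast this.ne'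
  push_cast
  field_simp
  linear_combination (-2 * ee Θ * (s : ℂ) ^ 2) * Complex.I_sq

lemma cot_step {Θ s : ℝ} (hs : s ≠ 0) : ee (Θ + 2 * Real.arctan s) - ee Θ ≠ 0 ∧
    Complex.I * (ee (Θ + 2 * Real.arctan s) + ee Θ) / (ee (Θ + 2 * Real.arctan s) - ee Θ) =
      ((s⁻¹ : ℝ) : ℂ) := by
  have h1 := ee_step (Θ := Θ) (s := s)
  have h2 : (1 - (s : ℂ) * Complex.I) ≠ 0 := by
    intro h
    have := congrArg Complex.re h
    simp at this
  have hsC : (s : ℂ) ≠ 0 := by exact_mod_cast hs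
  have he := ee_ne Θ
  have h3 : ee (Θ + 2 * Real.arctan s) = (1 + s * Complex.I) * ee Θ / (1 - s * Complex.I) := by
    field_simp
    linear_combination h1
  have h4 : ee (Θ + 2 * Real.arctan s) - ee Θ = 2 * s * Complex.I * ee Θ / (1 - s * Complex.I) := by
    rw [h3]; field_simp; ring
  have h5 : ee (Θ + 2 * Real.arctan s) + ee Θ = 2 * ee Θ / (1 - s * Complex.I) := by
    rw [h3]; field_simp; ring
  refine ⟨?_, ?_⟩
  · rw [h4]
    exact div_ne_zero (mul_ne_zero (mul_ne_zero (mul_ne_zero two_ne_zero hsC) Complex.I_ne_zero) he) h2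
  · rw [h4, h5]
    have hI := Complex.I_ne_zero
    have h6 : (1 - Complex.I * (s : ℂ)) ≠ 0 := by rwa [mul_comm] at h2
    push_cast
    field_simp

/-- The data on one leaf of periodic points. -/
structure Leaf (N D : ℂ[X]) (q : ℕ) (F S : ℝ → ℝ) : Prop where
  hq : 0 < q
  pos : ∀ Θ, 0 < S Θ
  step : ∀ Θ, F Θ = Θ + 2 * Real.arctan (S Θ)
  per : ∀ Θ, F^[q] Θ = Θ + 2 * Real.pi
  den : ∀ Θ, D.eval (ee Θ) ≠ 0
  rel : ∀ Θ, (((S (F Θ))⁻¹ - (S Θ)⁻¹ : ℝ) : ℂ) = N.eval (ee (F Θ)) / D.eval (ee (F Θ))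

/-- The points of the orbits as germs. -/
noncomputable def EE (F : ℝ → ℝ) (m : ℕ) : GG := gm (fun n => ee (F^[m] (1 / ((n : ℝ) + 1))))

variable {N D : ℂ[X]} {q : ℕ} {F S : ℝ → ℝ}

lemma Leaf.EE_per (H : Leaf N D q F S) (m : ℕ) : EE F (m + q) = EE F m := by
  unfold EE
  congr 1
  ext n
  have h1 : ∀ Θ, ee (F^[m + q] Θ) = ee (F^[m] Θ) := by
    intro Θ
    have h2 : F^[m + q] Θ = F^[q] (F^[m] Θ) := by
      rw [add_comm, Function.iterate_add_apply]
    rw [h2, H.per, ee_add_two_pi]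
  exact h1 _

lemma Leaf.EE_per' (H : Leaf N D q F S) (m k : ℕ) : EE F (m + k * q) = EE F m := by
  induction k with
  | zero => simp
  | succ k ih =>
    have : m + (k + 1) * q = (m + k * q) + q := by ring
    rw [this, H.EE_per, ih]

/-- The bi-infinite sequence. -/
noncomputable def XX (F : ℝ → ℝ) (q : ℕ) (j : ℤ) : GG := EE F (j % q).toNat

lemma Leaf.XX_eq (H : Leaf N D q F S) {j : ℤ} {m : ℕ} (h : (q : ℤ) ∣ (m : ℤ) - j) :
    XX F q j = EE F m := by
  unfold XX
  have hq : (0 : ℤ) < q := by exact_mod_cast H.hq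
  have h1 : 0 ≤ j % q := Int.emod_nonneg _ hq.ne'
  have h2 : j % q = (m : ℤ) % q := by
    have := (Int.emod_emod_of_dvd j (dvd_refl (q : ℤ)))
    exact (Int.modEq_iff_dvd.2 h)
  have h3 : (j % q).toNat = m % q := by
    rw [h2]
    have : ((m : ℤ) % (q : ℤ)) = ((m % q : ℕ) : ℤ) := by simp
    rw [this, Int.toNat_natCast]
  rw [h3]
  conv_rhs => rw [← Nat.mod_add_div m q, mul_comm]
  rw [H.EE_per']

theorem Leaf.curve (H : Leaf N D q F S) : Curve cst N D q (XX F q) := by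
  have hq : (0 : ℤ) < q := by exact_mod_cast H.hq
  -- representatives
  have hrep : ∀ j : ℤ, ∃ m : ℕ, XX F q (j - 1) = EE F m ∧ XX F q j = EE F (m + 1) ∧
      XX F q (j + 1) = EE F (m + 2) := by
    intro j
    refine ⟨((j - 1) % q).toNat, rfl, ?_, ?_⟩
    · apply H.XX_eq
      have h1 : 0 ≤ (j - 1) % q := Int.emod_nonneg _ hq.ne'
      push_cast
      rw [Int.toNat_of_nonneg h1]
      have h2 := Int.emod_add_mul_ediv (j - 1) q
      exact ⟨-((j - 1) / q), by linarith⟩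
    · apply H.XX_eq
      have h1 : 0 ≤ (j - 1) % q := Int.emod_nonneg _ hq.ne'
      push_cast
      rw [Int.toNat_of_nonneg h1]
      have h2 := Int.emod_add_mul_ediv (j - 1) q
      exact ⟨-((j - 1) / q), by linarith⟩
  have hstep : ∀ m Θ, F^[m + 1] Θ = F^[m] Θ + 2 * Real.arctan (S (F^[m] Θ)) := by
    intro m Θ
    rw [Function.iterate_succ_apply', H.step]
  refine ⟨H.hq, ?_, ?_, ?_, ?_, ?_, ?_⟩
  · intro j
    unfold XX
    rw [Int.add_emod_right]
  · intro j
    obtain ⟨m, -, h2, h3⟩ := hrep j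
    rw [h2, h3, ← sub_ne_zero]
    unfold EE
    rw [← map_sub]
    apply gm_ne_zero
    intro n
    show ee (F^[m + 1 + 1] _) - ee (F^[m + 1] _) ≠ 0
    rw [hstep (m + 1)]
    exact (cot_step (H.pos _).ne').1
  · intro j
    unfold XX EE
    exact gm_ne_zero fun n => ee_ne _
  · intro j
    unfold XX EE
    rw [eval₂_gm]
    exact gm_ne_zero fun n => H.den _
  · intro c hc
    have h1 : XX F q 0 = EE F 0 := by
      unfold XX; simp
    rw [h1, cst_eq] at hc
    unfold EE at hc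
    rw [gm_eq] at hc
    have h2 : {n : ℕ | ee (F^[0] (1 / ((n : ℝ) + 1))) = c}.Finite := by
      refine Set.Subsingleton.finite ?_
      intro a ha b hb
      simp only [Set.mem_ofPred_eq, Function.iterate_zero, id_eq] at ha hb
      have h3 : ee (1 / ((a : ℝ) + 1)) = ee (1 / ((b : ℝ) + 1)) := ha.trans hb.symm
      have hra : 0 < 1 / ((a : ℝ) + 1) ∧ 1 / ((a : ℝ) + 1) ≤ 1 :=
        ⟨by positivity, by rw [div_le_one (by positivity)]; linarith [Nat.cast_nonneg (α := ℝ) a]⟩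
      have hrb : 0 < 1 / ((b : ℝ) + 1) ∧ 1 / ((b : ℝ) + 1) ≤ 1 :=
        ⟨by positivity, by rw [div_le_one (by positivity)]; linarith [Nat.cast_nonneg (α := ℝ) b]⟩
      have hpi := Real.pi_gt_three
      have h4 : (1 / ((a : ℝ) + 1)) = 1 / ((b : ℝ) + 1) := by
        have h5 := congrArg Complex.arg h3
        unfold ee at h5
        rw [Complex.arg_exp_mul_I, Complex.arg_exp_mul_I] at h5
        have h6 : ∀ t : ℝ, 0 < t → t ≤ 1 → toIocMod Real.two_pi_pos (-Real.pi) t = t := by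
          intro t ht0 ht1
          rw [toIocMod_eq_self]
          constructor <;> linarith
        rwa [h6 _ hra.1 hra.2, h6 _ hrb.1 hrb.2] at h5
      have h7 : (a : ℝ) + 1 = b + 1 := by
        have h8 : (0 : ℝ) < (a : ℝ) + 1 := by positivity
        have h9 : (0 : ℝ) < (b : ℝ) + 1 := by positivity
        field_simp at h4
        linarith
      have h8 : (a : ℝ) = b := by linarith
      exact_mod_cast h8
    have h3 := compl_mem_hyperfilter_of_finite h2
    have h4 : {n : ℕ | ee (F^[0] (1 / ((n : ℝ) + 1))) = c} ∈ (hyperfilter ℕ : Filter ℕ) := hc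
    have h5 := Filter.inter_mem h3 h4
    rw [Set.compl_inter_self] at h5
    exact Filter.empty_notMem _ h5
  · intro j
    obtain ⟨m, h1, h2, h3⟩ := hrep j
    rw [h1, h2, h3]
    unfold EE
    rw [eval₂_gm, eval₂_gm, cst_eq, ← map_add, ← map_add, ← map_sub, ← map_sub, ← map_mul,
      ← map_mul, gm_div, gm_div, gm_div, ← map_sub, gm_eq]
    refine Filter.Eventually.of_forall fun n => ?_
    set Θ := F^[m] (1 / ((n : ℝ) + 1)) with hΘ
    have e1 : F^[m + 1] (1 / ((n : ℝ) + 1)) = F Θ := by rw [Function.iterate_succ_apply']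
    have e2 : F^[m + 2] (1 / ((n : ℝ) + 1)) = F (F Θ) := by
      rw [show m + 2 = (m + 1) + 1 from rfl, Function.iterate_succ_apply', e1]
    simp only [Pi.sub_apply, Pi.mul_apply, Pi.add_apply]
    rw [e1, e2, ← H.rel Θ]
    have c1 := (cot_step (Θ := Θ) (H.pos Θ).ne').2
    have c2 := (cot_step (Θ := F Θ) (H.pos (F Θ)).ne').2
    rw [← H.step] at c1 c2
    rw [c1, c2]
    push_cast
    ring

end Pool.Agent.H719R2.PIR
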