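import Pool.Agent.H719R2.PIR.Alg

/-!
# Poles and residues of the structure, from one curve of periodic points
-/

open Polynomial

namespace Pool.Agent.H719R2.PIR

variable {K : Type*} [Field K]

/-- A valuation, trivial on `ℂ`, at which `X₀ = ξ`. -/
theorem exists_place (φ : ℂ →+* K) {X₀ : K} (hX : ∀ c, X₀ ≠ φ c) (ξ : ℂ) :
    ∃ V : ValuationSubring K, (∀ c : ℂ, c ≠ 0 → V.valuation (φ c) = 1) ∧
      V.valuation (X₀ - φ ξ) < 1 := by
  have hint : IsIntegrallyClosedIn φ.range K := by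
    rw [Subring.isIntegrallyClosedIn_iff]
    intro y hy
    let _ : Algebra ℂ K := φ.toAlgebra
    have h1 : IsIntegral ℂ y := by
      obtain ⟨p, hp, hpy⟩ := hy
      have hlift : ∃ p' : ℂ[X], p'.map φ.rangeRestrict = p ∧ p'.Monic := by
        have h2 : p ∈ Polynomial.lifts φ.rangeRestrict :=
          (Polynomial.mem_lifts p).2 (Polynomial.map_surjective _ φ.rangeRestrict_surjective p)
        obtain ⟨p', h3, _, h4⟩ := Polynomial.lifts_and_natDegree_eq_and_monic h2 hp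
        exact ⟨p', h3, h4⟩
      obtain ⟨p', hp', hmon⟩ := hlift
      refine ⟨p', hmon, ?_⟩
      rw [← hp', eval₂_map] at hpy
      exact hpy
    have h2 : y ∈ (algebraMap ℂ K).range := by
      have h3 := IsAlgClosed.degree_eq_one_of_irreducible ℂ (minpoly.irreducible h1)
      exact minpoly.mem_range_of_degree_eq_one ℂ y h3
    exact h2
  have hne : X₀ - φ ξ ≠ 0 := sub_ne_zero.2 (hX ξ)
  have hnot : (X₀ - φ ξ)⁻¹ ∉ φ.range := by
    rintro ⟨c, hc⟩
    have hc0 : c ≠ 0 := by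
      rintro rfl
      rw [map_zero] at hc
      exact inv_ne_zero hne hc.symm
    apply hX (ξ + c⁻¹)
    rw [map_add, map_inv₀, hc, inv_inv]; ring
  obtain ⟨V, hV, hVx⟩ := Subring.exists_le_valuationSubring_of_isIntegrallyClosedIn hnot
  refine ⟨V, ?_, ?_⟩
  · intro c hc
    have h1 : ∀ c : ℂ, V.valuation (φ c) ≤ 1 := fun c =>
      (V.valuation_le_one_iff _).2 (hV ⟨c, rfl⟩)
    refine le_antisymm (h1 c) ?_
    have h2 := h1 c⁻¹
    rw [map_inv₀, map_inv₀] at h2
    have h3 : V.valuation (φ c) ≠ 0 := by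
      rw [Valuation.ne_zero_iff]
      exact (map_ne_zero φ).2 hc
    exact (inv_le_one₀ (zero_lt_iff.2 h3)).1 h2
  · by_contra hcon
    push Not at hcon
    apply hVx
    rw [← V.valuation_le_one_iff, map_inv₀]
    exact inv_le_one_of_one_le₀ hcon

section val

variable {Γ₀ : Type*} [LinearOrderedCommGroupWithZero Γ₀] {φ : ℂ →+* K} {w : Valuation K Γ₀}

lemma val_eval_le (hφ : ∀ c : ℂ, c ≠ 0 → w (φ c) = 1) {x : K} (hx : w x ≤ 1) (P : ℂ[X]) :
    w (eval₂ φ x P) ≤ 1 := by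
  induction P using Polynomial.induction_on' with
  | add p q hp hq =>
    rw [eval₂_add]; exact Valuation.map_add_le w hp hq
  | monomial n c =>
    rw [eval₂_monomial, map_mul, map_pow]
    exact mul_le_one' (val_le_one hφ c) (pow_le_one₀ zero_le hx)

lemma val_eval_sub (hφ : ∀ c : ℂ, c ≠ 0 → w (φ c) = 1) {x : K} {ξ : ℂ} (hx : w (x - φ ξ) < 1)
    (P : ℂ[X]) : w (eval₂ φ x P - φ (P.eval ξ)) < 1 := by
  have hx1 : w x ≤ 1 := by
    have : x = (x - φ ξ) + φ ξ := by ring
    rw [this]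
    exact Valuation.map_add_le w hx.le (val_le_one hφ ξ)
  obtain ⟨R, hR⟩ := X_sub_C_dvd_sub_C_eval (a := ξ) (p := P)
  have h1 : eval₂ φ x P - φ (P.eval ξ) = (x - φ ξ) * eval₂ φ x R := by
    have h2 := congrArg (eval₂ φ x) hR
    rw [eval₂_sub, eval₂_C, eval₂_mul, eval₂_sub, eval₂_X, eval₂_C] at h2
    exact h2
  rw [h1, map_mul]
  calc w (x - φ ξ) * w (eval₂ φ x R) ≤ w (x - φ ξ) * 1 := by
        gcongr; exact val_eval_le hφ hx1 R
    _ < 1 := by rw [mul_one]; exact hx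

lemma val_div (hφ : ∀ c : ℂ, c ≠ 0 → w (φ c) = 1) {a b : K} {α β : ℂ} (ha : w (a - φ α) < 1)
    (hb : w (b - φ β) < 1) (hβ : β ≠ 0) : w (a / b - φ (α / β)) < 1 := by
  have hb1 : w b = 1 := val_unit hφ hβ hb
  have hb0 : b ≠ 0 := by
    rintro rfl
    simp at hb1
  have hφβ : φ β ≠ 0 := (map_ne_zero φ).2 hβ
  have e : a / b - φ (α / β) = ((a - φ α) * φ β - φ α * (b - φ β)) / (b * φ β) := by
    rw [map_div₀]; field_simp; ring
  rw [e, map_div₀, map_mul w b, hb1, hφ β hβ, one_mul, div_one]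
  refine Valuation.map_sub_lt w ?_ ?_
  · rw [map_mul, hφ β hβ, mul_one]; exact ha
  · rw [map_mul]
    calc w (φ α) * w (b - φ β) ≤ 1 * w (b - φ β) := by gcongr; exact val_le_one hφ α
      _ < 1 := by rw [one_mul]; exact hb

end val

/-- A periodic solution of the billiard recurrence, over the field `K`. -/
structure Curve (φ : ℂ →+* K) (N D : ℂ[X]) (q : ℕ) (X : ℤ → K) : Prop where
  hq : 0 < q
  per : ∀ j, X (j + q) = X j
  ne : ∀ j, X (j + 1) ≠ X j
  ne0 : ∀ j, X j ≠ 0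
  den : ∀ j, eval₂ φ (X j) D ≠ 0
  nonconst : ∀ c, X 0 ≠ φ c
  rel : ∀ j, φ Complex.I * (X (j + 1) + X j) / (X (j + 1) - X j) -
    φ Complex.I * (X j + X (j - 1)) / (X j - X (j - 1)) = eval₂ φ (X j) N / eval₂ φ (X j) D

variable {φ : ℂ →+* K} {N D : ℂ[X]} {q : ℕ} {X : ℤ → K}

/-- The admissible residues. -/
def Adm (β : ℂ) : Prop := β = -1 ∨ ∃ k : ℕ, (k + 1 : ℂ) * β + k = 0

lemma Curve.rel' (H : Curve φ N D q X) (j : ℤ) :
    (X (j + 1) - X j)⁻¹ + (X (j - 1) - X j)⁻¹ =
      (eval₂ φ (X j) N - φ (2 * Complex.I) * eval₂ φ (X j) D) /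
        (φ (2 * Complex.I) * X j * eval₂ φ (X j) D) := by
  have h1 := H.rel j
  have h2 : X (j + 1) - X j ≠ 0 := sub_ne_zero.2 (H.ne j)
  have h3 : X j - X (j - 1) ≠ 0 := by
    have := H.ne (j - 1)
    rw [sub_add_cancel] at this
    exact sub_ne_zero.2 this
  have h4 : X (j - 1) - X j ≠ 0 := by
    intro h; apply h3; rw [← neg_sub, h, neg_zero]
  have hI : φ Complex.I ≠ 0 := (map_ne_zero φ).2 Complex.I_ne_zero
  have h20 : (2 : K) ≠ 0 := by
    have : φ (2 : ℂ) ≠ 0 := (map_ne_zero φ).2 two_ne_zero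
    rwa [map_ofNat] at this
  have hD := H.den j
  have hX := H.ne0 j
  have h5 : eval₂ φ (X j) N = (φ Complex.I * (X (j + 1) + X j) / (X (j + 1) - X j) -
    φ Complex.I * (X j + X (j - 1)) / (X j - X (j - 1))) * eval₂ φ (X j) D := by
    rw [h1]; field_simp
  rw [h5, map_mul, map_ofNat]
  have h6 : X (j - 1) - X j = -(X j - X (j - 1)) := by ring
  rw [h6, inv_neg]
  field_simp
  ring

lemma Curve.orbit (H : Curve φ N D q X) (ξ : ℂ) (hξ : ξ = 0 ∨ D.eval ξ = 0) :
    Orbit q (fun j => X j - φ ξ) (fun j =>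
      (eval₂ φ (X j) N - φ (2 * Complex.I) * eval₂ φ (X j) D) /
        (φ (2 * Complex.I) * X j * eval₂ φ (X j) D)) := by
  refine ⟨H.hq, fun j => by rw [H.per], fun j => ?_, fun j => ?_, fun j => ?_⟩
  · intro h
    exact H.ne j (sub_left_injective h)
  · intro h
    have h1 : X j = φ ξ := sub_eq_zero.1 h
    rcases hξ with h2 | h2
    · rw [h2, map_zero] at h1
      exact H.ne0 j h1
    · apply H.den j
      rw [h1, eval₂_at_apply, h2, map_zero]
  · simp only [sub_sub_sub_cancel_right]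
    exact H.rel' j

/-- At a nonzero root of the denominator the structure has a simple pole with admissible
residue. -/
theorem Curve.residue (H : Curve φ N D q X) (hND : IsCoprime N D) {ξ : ℂ} (hξ0 : ξ ≠ 0)
    (hξ : D.eval ξ = 0) : (derivative D).eval ξ ≠ 0 ∧
      Adm (N.eval ξ / (2 * Complex.I * ξ * (derivative D).eval ξ)) := by
  have hD0 : D ≠ 0 := by
    rintro rfl
    exact H.den 0 (by simp)
  have hNξ : N.eval ξ ≠ 0 := by
    intro h
    obtain ⟨a, b, hab⟩ := hND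
    have := congrArg (eval ξ) hab
    simp [h, hξ] at this
  obtain ⟨V, hφ, hV⟩ := exists_place φ H.nonconst ξ
  obtain ⟨e, he, hne⟩ := exists_eq_pow_rootMultiplicity_mul_and_not_dvd D hD0 ξ
  set m := rootMultiplicity ξ D with hm
  have hm0 : 0 < m := (rootMultiplicity_pos hD0).2 hξ
  have heξ : e.eval ξ ≠ 0 := by
    intro h; exact hne (dvd_iff_isRoot.2 h)
  have hO := H.orbit ξ (Or.inr hξ)
  have h2I : (2 * Complex.I : ℂ) ≠ 0 := mul_ne_zero two_ne_zero Complex.I_ne_zero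
  have key : ∀ j, V.valuation (X j - φ ξ) < 1 → V.valuation
      ((eval₂ φ (X j) N - φ (2 * Complex.I) * eval₂ φ (X j) D) /
        (φ (2 * Complex.I) * X j * eval₂ φ (X j) D) * (X j - φ ξ) ^ m -
        φ (N.eval ξ / (2 * Complex.I * ξ * e.eval ξ))) < 1 := by
    intro j hj
    have h1 : eval₂ φ (X j) D = (X j - φ ξ) ^ m * eval₂ φ (X j) e := by
      conv_lhs => rw [he]
      rw [eval₂_mul, eval₂_pow, eval₂_sub, eval₂_X, eval₂_C]
    have h0 : (X j - φ ξ) ≠ 0 := hO.ne0 j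
    have h2 : eval₂ φ (X j) e ≠ 0 := by
      intro h; apply H.den j; rw [h1, h, mul_zero]
    have hX := H.ne0 j
    have hφ2I : φ (2 * Complex.I) ≠ 0 := (map_ne_zero φ).2 h2I
    have e1 : (eval₂ φ (X j) N - φ (2 * Complex.I) * eval₂ φ (X j) D) /
        (φ (2 * Complex.I) * X j * eval₂ φ (X j) D) * (X j - φ ξ) ^ m =
        eval₂ φ (X j) (N - C (2 * Complex.I) * D) /
          eval₂ φ (X j) (C (2 * Complex.I) * Polynomial.X * e) := by
      rw [eval₂_sub, eval₂_mul, eval₂_mul, eval₂_mul, eval₂_C, eval₂_X, h1]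
      field_simp
    have e2 : N.eval ξ / (2 * Complex.I * ξ * e.eval ξ) =
        (N - C (2 * Complex.I) * D).eval ξ / (C (2 * Complex.I) * Polynomial.X * e).eval ξ := by
      simp only [eval_sub, eval_mul, eval_C, eval_X, hξ, mul_zero, sub_zero]
    rw [e1, e2]
    refine val_div hφ (val_eval_sub hφ hj _) (val_eval_sub hφ hj _) ?_
    simp only [eval_mul, eval_C, eval_X]
    exact mul_ne_zero (mul_ne_zero h2I hξ0) heξ
  have hα : N.eval ξ / (2 * Complex.I * ξ * e.eval ξ) ≠ 0 :=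
    div_ne_zero hNξ (mul_ne_zero (mul_ne_zero h2I hξ0) heξ)
  have hm1 : m = 1 := by
    by_contra hcon
    exact hO.high_pole hφ hα (by omega) key hV
  rw [hm1] at key he
  have hder : (derivative D).eval ξ = e.eval ξ := by
    rw [he]
    simp
  rw [hder]
  refine ⟨heξ, ?_⟩
  refine hO.simple_pole hφ (fun j hj => ?_) hV
  have := key j hj
  rwa [pow_one] at this

/-- At `0` the structure is regular, with an admissible value. -/
theorem Curve.at_zero (H : Curve φ N D q X) (hND : IsCoprime N D) : D.eval 0 ≠ 0 ∧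
      Adm (N.eval 0 / (2 * Complex.I * D.eval 0) - 1) := by
  have hD0 : D ≠ 0 := by
    rintro rfl
    exact H.den 0 (by simp)
  obtain ⟨V, hφ, hV⟩ := exists_place φ H.nonconst 0
  have h2I : (2 * Complex.I : ℂ) ≠ 0 := mul_ne_zero two_ne_zero Complex.I_ne_zero
  have hO := H.orbit 0 (Or.inl rfl)
  have hφ2I : φ (2 * Complex.I) ≠ 0 := (map_ne_zero φ).2 h2I
  have hreg : D.eval 0 ≠ 0 := by
    intro hξ
    have hNξ : N.eval 0 ≠ 0 := by
      intro h
      obtain ⟨a, b, hab⟩ := hND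
      have := congrArg (eval 0) hab
      simp [h, hξ] at this
    obtain ⟨e, he, hne⟩ := exists_eq_pow_rootMultiplicity_mul_and_not_dvd D hD0 0
    set m := rootMultiplicity 0 D with hm
    have hm0 : 0 < m := (rootMultiplicity_pos hD0).2 hξ
    have heξ : e.eval 0 ≠ 0 := by
      intro h; exact hne (dvd_iff_isRoot.2 h)
    have hα : N.eval 0 / (2 * Complex.I * e.eval 0) ≠ 0 :=
      div_ne_zero hNξ (mul_ne_zero h2I heξ)
    refine hO.high_pole hφ hα (m := m + 1) (by omega) (fun j hj => ?_) hV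
    have h1 : eval₂ φ (X j) D = X j ^ m * eval₂ φ (X j) e := by
      conv_lhs => rw [he]
      rw [eval₂_mul, eval₂_pow, eval₂_sub, eval₂_X, eval₂_C, map_zero, sub_zero]
    have h2 : eval₂ φ (X j) e ≠ 0 := by
      intro h; apply H.den j; rw [h1, h, mul_zero]
    have hX := H.ne0 j
    have e1 : (eval₂ φ (X j) N - φ (2 * Complex.I) * eval₂ φ (X j) D) /
        (φ (2 * Complex.I) * X j * eval₂ φ (X j) D) * (X j - φ 0) ^ (m + 1) =
        eval₂ φ (X j) (N - C (2 * Complex.I) * D) /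
          eval₂ φ (X j) (C (2 * Complex.I) * e) := by
      rw [eval₂_sub, eval₂_mul, eval₂_mul, eval₂_C, h1, map_zero, sub_zero]
      field_simp
      ring
    have e2 : N.eval 0 / (2 * Complex.I * e.eval 0) =
        (N - C (2 * Complex.I) * D).eval 0 / (C (2 * Complex.I) * e).eval 0 := by
      simp only [eval_sub, eval_mul, eval_C, hξ, mul_zero, sub_zero]
    rw [e1, e2]
    refine val_div hφ (val_eval_sub hφ hj _) (val_eval_sub hφ hj _) ?_
    simp only [eval_mul, eval_C]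
    exact mul_ne_zero h2I heξ
  refine ⟨hreg, ?_⟩
  refine hO.simple_pole hφ (fun j hj => ?_) hV
  have hX := H.ne0 j
  have hD := H.den j
  have e1 : (eval₂ φ (X j) N - φ (2 * Complex.I) * eval₂ φ (X j) D) /
      (φ (2 * Complex.I) * X j * eval₂ φ (X j) D) * (X j - φ 0) =
      eval₂ φ (X j) (N - C (2 * Complex.I) * D) /
        eval₂ φ (X j) (C (2 * Complex.I) * D) := by
    rw [eval₂_sub, eval₂_mul, eval₂_C, map_zero, sub_zero]
    field_simp
  have e2 : N.eval 0 / (2 * Complex.I * D.eval 0) - 1 =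
      (N - C (2 * Complex.I) * D).eval 0 / (C (2 * Complex.I) * D).eval 0 := by
    simp only [eval_sub, eval_mul, eval_C]
    have := mul_ne_zero h2I hreg
    rw [sub_div, div_self this]
  rw [e1, e2]
  refine val_div hφ (val_eval_sub hφ hj _) (val_eval_sub hφ hj _) ?_
  simp only [eval_mul, eval_C]
  exact mul_ne_zero h2I hreg

end Pool.Agent.H719R2.PIR
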