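import Pool.Agent.H719R2.PIR.Germs

/-!
# Reality on the circle: symmetry of the poles, partial fractions
-/

open Polynomial Filter

namespace Pool.Agent.H719R2.PIR

open ComplexConjugate

lemma ee_norm (Θ : ℝ) : ‖ee Θ‖ = 1 := Complex.norm_exp_ofReal_mul_I Θ

lemma ee_seq_injective : Function.Injective (fun n : ℕ => ee (1 / ((n : ℝ) + 1))) := by
  intro a b h3
  simp only at h3
  have hra : 0 < 1 / ((a : ℝ) + 1) ∧ 1 / ((a : ℝ) + 1) ≤ 1 :=
    ⟨by positivity, by rw [div_le_one (by positivity)]; linarith [Nat.cast_nonneg (α := ℝ) a]⟩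
  have hrb : 0 < 1 / ((b : ℝ) + 1) ∧ 1 / ((b : ℝ) + 1) ≤ 1 :=
    ⟨by positivity, by rw [div_le_one (by positivity)]; linarith [Nat.cast_nonneg (α := ℝ) b]⟩
  have hpi := Real.pi_gt_three
  have h4 : (1 / ((a : ℝ) + 1)) = 1 / ((b : ℝ) + 1) := by
    have h5 := congrArg Complex.arg h3
    unfold ee at h5
    rw [Complex.arg_exp_mul_I, Complex.arg_exp_mul_I] at h5
    have h6 : ∀ t : ℝ, 0 < t → t ≤ 1 → toIocMod Real.two_pi_pos (-Real.pi) t = t := by
      intro t ht0 ht1
      rw [toIocMod_eq_self]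
      constructor <;> linarith
    rwa [h6 _ hra.1 hra.2, h6 _ hrb.1 hrb.2] at h5
  have h7 : (a : ℝ) + 1 = b + 1 := by
    have h8 : (0 : ℝ) < (a : ℝ) + 1 := by positivity
    have h9 : (0 : ℝ) < (b : ℝ) + 1 := by positivity
    field_simp at h4
    linarith
  have h8 : (a : ℝ) = b := by linarith
  exact_mod_cast h8

/-- The reflected polynomial. -/
noncomputable def star (n : ℕ) (P : ℂ[X]) : ℂ[X] := reflect n (P.map (starRingEnd ℂ))

lemma star_eval {n : ℕ} {P : ℂ[X]} (hP : P.natDegree ≤ n) {p : ℂ} (hp : p ≠ 0) :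
    (star n P).eval p = p ^ n * conj (P.eval (conj p)⁻¹) := by
  let _ := invertibleOfNonzero (inv_ne_zero hp)
  have h1 := eval₂_reflect_mul_pow (RingHom.id ℂ) (p⁻¹) n (P.map (starRingEnd ℂ))
    ((natDegree_map_le).trans hP)
  have h2 : (⅟ (p⁻¹) : ℂ) = p := by rw [invOf_eq_inv, inv_inv]
  rw [h2] at h1
  have h3 : eval₂ (RingHom.id ℂ) p⁻¹ (P.map (starRingEnd ℂ)) = conj (P.eval (conj p)⁻¹) := by
    rw [eval₂_id, eval_map, ← eval₂_id, hom_eval₂, RingHom.comp_id, map_inv₀, Complex.conj_conj]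
  rw [h3, eval₂_id] at h1
  unfold star
  rw [← h1, inv_pow]
  field_simp

lemma star_zero (n : ℕ) (P : ℂ[X]) : (star n P).eval 0 = conj (P.coeff n) := by
  unfold star
  rw [← coeff_zero_eq_eval_zero, coeff_reflect, revAt_le (Nat.zero_le n), Nat.sub_zero, coeff_map]

lemma conj_inv_ee (Θ : ℝ) : (conj (ee Θ))⁻¹ = ee Θ := by
  have h := Complex.mul_conj (ee Θ)
  rw [Complex.normSq_eq_norm_sq, ee_norm] at h
  have h2 : conj (ee Θ) ≠ 0 := (_root_.map_ne_zero _).2 (ee_ne Θ)
  have h3 : ee Θ * conj (ee Θ) = 1 := by rw [h]; norm_num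
  field_simp
  rw [mul_comm]; exact h3.symm

variable {N D : ℂ[X]}

/-- The data of a rational structure, real on the circle. -/
structure RS (N D : ℂ[X]) : Prop where
  cop : IsCoprime N D
  den : ∀ Θ, D.eval (ee Θ) ≠ 0
  real : ∀ Θ, ∃ r : ℝ, N.eval (ee Θ) / D.eval (ee Θ) = r
  zero : D.eval 0 ≠ 0
  adm0 : Adm (N.eval 0 / (2 * Complex.I * D.eval 0) - 1)
  res : ∀ ξ, ξ ≠ 0 → D.eval ξ = 0 → (derivative D).eval ξ ≠ 0 ∧
      Adm (N.eval ξ / (2 * Complex.I * ξ * (derivative D).eval ξ))

lemma RS.star_mul (H : RS N D) {n : ℕ} (hN : N.natDegree ≤ n) (hD : D.natDegree ≤ n) :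
    N * star n D = star n N * D := by
  apply eq_of_infinite_eval_eq
  refine Set.infinite_of_injective_forall_mem ee_seq_injective ?_
  intro k
  simp only [Set.mem_ofPred_eq]
  set Θ := 1 / ((k : ℝ) + 1)
  rw [eval_mul, eval_mul, star_eval hN (ee_ne Θ), star_eval hD (ee_ne Θ), conj_inv_ee]
  obtain ⟨r, hr⟩ := H.real Θ
  have hd := H.den Θ
  have h1 : N.eval (ee Θ) = r * D.eval (ee Θ) := by
    rw [← hr]; field_simp
  rw [h1, map_mul, Complex.conj_ofReal]
  ring

lemma RS.D_ne (H : RS N D) : D ≠ 0 := by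
  rintro rfl
  exact H.zero (by simp)

lemma RS.root_ne (H : RS N D) {ξ : ℂ} (hξ : D.eval ξ = 0) : ξ ≠ 0 := by
  rintro rfl
  exact H.zero hξ

/-- The set of roots is symmetric about the circle. -/
lemma RS.root_symm (H : RS N D) {ξ : ℂ} (hξ : D.eval ξ = 0) : D.eval (conj ξ)⁻¹ = 0 := by
  set n := max N.natDegree D.natDegree
  have h1 := H.star_mul (le_max_left _ _ : N.natDegree ≤ n) (le_max_right _ _ : D.natDegree ≤ n)
  have h2 : D ∣ star n D := by
    have h3 : D ∣ N * star n D := by rw [h1]; exact dvd_mul_left _ _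
    exact H.cop.symm.dvd_of_dvd_mul_left h3
  obtain ⟨E, hE⟩ := h2
  have h3 : (star n D).eval ξ = 0 := by rw [hE, eval_mul, hξ, zero_mul]
  have h0 := H.root_ne hξ
  rw [star_eval (le_max_right _ _) h0] at h3
  have h4 := (mul_eq_zero.1 h3).resolve_left (pow_ne_zero _ h0)
  exact (map_eq_zero _).1 h4

lemma RS.degree (H : RS N D) : N.natDegree ≤ D.natDegree := by
  by_contra hcon
  push Not at hcon
  have h1 := H.star_mul (n := N.natDegree) le_rfl hcon.le
  have h2 := congrArg (eval 0) h1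
  rw [eval_mul, eval_mul, star_zero, star_zero, coeff_eq_zero_of_natDegree_lt hcon, map_zero,
    mul_zero] at h2
  have h3 : N ≠ 0 := by
    rintro rfl
    simp at hcon
  have h4 : conj (N.coeff N.natDegree) ≠ 0 := (_root_.map_ne_zero _).2 (leadingCoeff_ne_zero.2 h3)
  exact mul_ne_zero h4 H.zero h2.symm

/-- The value at infinity is conjugate to the value at `0`. -/
lemma RS.infty (H : RS N D) : N.coeff D.natDegree / D.coeff D.natDegree =
    conj (N.eval 0 / D.eval 0) := by
  have h1 := H.star_mul (n := D.natDegree) H.degree le_rfl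
  have h2 := congrArg (eval 0) h1
  rw [eval_mul, eval_mul, star_zero, star_zero] at h2
  have h3 : D.coeff D.natDegree ≠ 0 := leadingCoeff_ne_zero.2 H.D_ne
  have h4 := congrArg conj h2
  rw [map_mul, map_mul, Complex.conj_conj, Complex.conj_conj] at h4
  rw [map_div₀]
  have h5 : conj (D.eval 0) ≠ 0 := (_root_.map_ne_zero _).2 H.zero
  field_simp
  linear_combination -h4

open Classical in
/-- The finite set of poles. -/
noncomputable def poles (D : ℂ[X]) : Finset ℂ := D.roots.toFinset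

lemma RS.mem_poles (H : RS N D) {ξ : ℂ} : ξ ∈ poles D ↔ D.eval ξ = 0 := by
  unfold poles
  rw [Multiset.mem_toFinset, mem_roots H.D_ne, IsRoot.def]

open Classical in
/-- Partial fractions. -/
lemma RS.partial_fractions (H : RS N D) {p : ℂ} (hp : D.eval p ≠ 0) :
    N.eval p / D.eval p = conj (N.eval 0 / D.eval 0) +
      ∑ ξ ∈ poles D, N.eval ξ / (derivative D).eval ξ * (p - ξ)⁻¹ := by
  have hsep : D.roots.Nodup := by
    rw [Multiset.nodup_iff_count_le_one]
    intro ξ
    rw [count_roots]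
    by_contra hcon
    push Not at hcon
    have h1 := (one_lt_rootMultiplicity_iff_isRoot H.D_ne).1 hcon
    exact (H.res ξ (H.root_ne h1.1) h1.1).1 h1.2
  have hcard : (poles D).card = D.natDegree := by
    unfold poles
    rw [Multiset.toFinset_card_of_nodup hsep]
    exact (splits_iff_card_roots.1 (IsAlgClosed.splits D))
  have hprod : D = C D.leadingCoeff * Lagrange.nodal (poles D) id := by
    conv_lhs => rw [(IsAlgClosed.splits D).eq_prod_roots]
    congr 1
    unfold poles Lagrange.nodal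
    rw [Finset.prod, Multiset.toFinset_val, Multiset.dedup_eq_self.2 hsep]
    rfl
  set lc := D.leadingCoeff with hlc
  have hlc0 : lc ≠ 0 := leadingCoeff_ne_zero.2 H.D_ne
  set A := N.coeff D.natDegree / D.coeff D.natDegree with hA
  set f := N - C A * D with hf
  have hdeg : f.degree < (poles D).card := by
    rw [hcard]
    rw [degree_lt_iff_coeff_zero]
    intro m hm
    rcases eq_or_lt_of_le hm with h1 | h1
    · have h1' : D.natDegree = m := by exact_mod_cast h1
      rw [← h1', hf, coeff_sub, coeff_C_mul, hA]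
      have : D.coeff D.natDegree ≠ 0 := hlc0
      field_simp
      ring
    · have h1' : D.natDegree < m := by exact_mod_cast h1
      rw [hf, coeff_sub, coeff_C_mul, coeff_eq_zero_of_natDegree_lt h1',
        coeff_eq_zero_of_natDegree_lt (lt_of_le_of_lt H.degree h1')]
      ring
  have h1 := Lagrange.eq_interpolate (s := poles D) (v := id) (f := f)
    (Function.injective_id.injOn) hdeg
  have h2 : ∀ ξ ∈ poles D, p ≠ id ξ := by
    intro ξ hξ h
    rw [H.mem_poles] at hξ
    rw [id] at h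
    rw [h] at hp
    exact hp hξ
  have h3 := Lagrange.eval_interpolate_not_at_node (s := poles D) (v := id)
    (fun i => f.eval (id i)) h2
  rw [← h1] at h3
  have h4 : D.eval p = lc * (Lagrange.nodal (poles D) id).eval p := by
    conv_lhs => rw [hprod]
    rw [eval_mul, eval_C]
  have h5 : (Lagrange.nodal (poles D) id).eval p ≠ 0 := by
    intro h; rw [h4, h, mul_zero] at hp; exact hp rfl
  have h6 : f.eval p / D.eval p =
      ∑ ξ ∈ poles D, N.eval ξ / (derivative D).eval ξ * (p - ξ)⁻¹ := by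
    rw [h3, h4, mul_comm lc, mul_div_mul_left _ _ h5, Finset.sum_div]
    refine Finset.sum_congr rfl fun ξ hξ => ?_
    rw [Lagrange.nodalWeight_eq_eval_derivative_nodal hξ]
    have h7 : (derivative D).eval ξ = lc * (derivative (Lagrange.nodal (poles D) id)).eval ξ := by
      conv_lhs => rw [hprod]
      rw [derivative_C_mul, eval_mul, eval_C]
    have h8 : f.eval ξ = N.eval ξ := by
      rw [hf, eval_sub, eval_mul, H.mem_poles.1 hξ, mul_zero, sub_zero]
    simp only [id]
    rw [h7, h8]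
    have h9 : (derivative (Lagrange.nodal (poles D) id)).eval ξ ≠ 0 := by
      intro h
      have h10 := (H.res ξ (H.root_ne (H.mem_poles.1 hξ)) (H.mem_poles.1 hξ)).1
      rw [h7, h, mul_zero] at h10
      exact h10 rfl
    field_simp
  rw [← h6, ← H.infty, hf, eval_sub, eval_mul, eval_C]
  field_simp
  ring

end Pool.Agent.H719R2.PIR
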